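import Mathlib
import Pool.Agent.Work.MP_a5099b_nt.H.HDefs
import Pool.Agent.Work.MP_a5099b_nt.I.CInt

/-!
Block K (averaged version of block H): definitions and basic facts (proved, fixed).

`K = ℚ(√-q)`, `δ = √-q` in the ring of integers, `φ : 𝓞 K →+* ℂ` with `φ δ = sq q`. `Od δ x` means `x ∈ ℤ[δ]`.
For a lattice `L` with multiplication by `sq q` and an ideal `I`, `LI φ δ L I` is the lattice `(L : I ∩ ℤ[δ])`.
-/

set_option autoImplicit false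
set_option linter.unusedSectionVars false

namespace Pool.Agent.SS.KB

open NumberField
open Pool.Agent.Work.CM
open Pool.Agent.Work.MP_a5099b_nt
open Pool.Agent.Work.MP_a5099b_nt.PrF (Quad U2 Sm Rel Cls)
open Pool.Agent.SS.HB
open scoped Pointwise

variable {K : Type} [Field K] [NumberField K] {q : ℕ} {δ : 𝓞 K}

/-- `x ∈ ℤ[δ]` -/
def Od (δ x : 𝓞 K) : Prop := ∃ a b : ℤ, x = (a : 𝓞 K) + (b : 𝓞 K) * δ

theorem Od.add {x y : 𝓞 K} (hx : Od δ x) (hy : Od δ y) : Od δ (x + y) := by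
  obtain ⟨a, b, rfl⟩ := hx
  obtain ⟨c, d, rfl⟩ := hy
  exact ⟨a + c, b + d, by push_cast; ring⟩

theorem Od.neg {x : 𝓞 K} (hx : Od δ x) : Od δ (-x) := by
  obtain ⟨a, b, rfl⟩ := hx
  exact ⟨-a, -b, by push_cast; ring⟩

theorem Od.sub {x y : 𝓞 K} (hx : Od δ x) (hy : Od δ y) : Od δ (x - y) := by
  rw [sub_eq_add_neg]
  exact hx.add hy.neg

theorem Od.mul (h : Quad K q δ) {x y : 𝓞 K} (hx : Od δ x) (hy : Od δ y) : Od δ (x * y) := by
  obtain ⟨a, b, rfl⟩ := hx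
  obtain ⟨c, d, rfl⟩ := hy
  refine ⟨a * c - q * (b * d), a * d + b * c, ?_⟩
  have e := h.sq
  push_cast
  linear_combination (b : 𝓞 K) * d * e

theorem Od.int (n : ℤ) : Od δ (n : 𝓞 K) := ⟨n, 0, by simp⟩

theorem Od.nat (n : ℕ) : Od δ (n : 𝓞 K) := ⟨n, 0, by simp⟩

theorem Od.one : Od δ (1 : 𝓞 K) := ⟨1, 0, by simp⟩

theorem Od.two : Od δ (2 : 𝓞 K) := ⟨2, 0, by simp⟩

theorem Od.delta : Od δ δ := ⟨0, 1, by simp⟩

theorem Od.two_mul (h : Quad K q δ) (x : 𝓞 K) : Od δ (2 * x) := by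
  obtain ⟨u, v, huv, _⟩ := PrF.coords h x
  exact ⟨u, v, huv⟩

theorem Od.of_u2 (h : Quad K q δ) {x : 𝓞 K} (hx : U2 x) : Od δ x := by
  obtain ⟨a, b, hab, _⟩ := (PrF.U2_iff h x).1 hx
  exact ⟨a, b, hab⟩

theorem u2_ne_zero (h : Quad K q δ) {x : 𝓞 K} (hx : U2 x) : x ≠ 0 := by
  rintro rfl
  obtain ⟨a, b, hab, hodd⟩ := (PrF.U2_iff h 0).1 hx
  have h1 := PrF.unique h a b 0 0 (by rw [← hab]; simp)
  rw [h1.1, h1.2] at hodd
  exact absurd hodd (by decide)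

theorem sq_ne (h : Quad K q δ) : sq q ≠ 0 := sq_ne_zero h.prime.pos

theorem phi_od {φ : 𝓞 K →+* ℂ} (hφ : φ δ = sq q) (a b : ℤ) :
    φ ((a : 𝓞 K) + (b : 𝓞 K) * δ) = (a : ℂ) + (b : ℂ) * sq q := by
  rw [map_add, map_mul, hφ, map_intCast, map_intCast]

theorem phi_ne_zero (h : Quad K q δ) {φ : 𝓞 K →+* ℂ} (hφ : φ δ = sq q) {x : 𝓞 K} (hx : x ≠ 0) :
    φ x ≠ 0 := by
  intro h0
  obtain ⟨u, v, huv, _⟩ := PrF.coords h x
  have h1 : (u : ℂ) + (v : ℂ) * sq q = 0 := by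
    rw [← phi_od hφ, ← huv, map_mul, h0, mul_zero]
  have hs : Real.sqrt q ≠ 0 := by
    rw [Real.sqrt_ne_zero']
    exact_mod_cast h.prime.pos
  have hre := congrArg Complex.re h1
  have him := congrArg Complex.im h1
  simp only [Complex.add_re, Complex.mul_re, Complex.intCast_re, Complex.intCast_im, sq_re, sq_im,
    Complex.zero_re, mul_zero, zero_mul, sub_zero, add_zero] at hre
  simp only [Complex.add_im, Complex.mul_im, Complex.intCast_re, Complex.intCast_im, sq_re, sq_im,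
    Complex.zero_im, zero_mul, add_zero, zero_add] at him
  have hv : v = 0 := by
    rcases mul_eq_zero.1 him with h2 | h2
    · exact_mod_cast h2
    · exact absurd h2 hs
  have hu : u = 0 := by exact_mod_cast hre
  rw [hu, hv] at huv
  have h2 : (2 : 𝓞 K) * x = 0 := by
    rw [huv]
    simp
  rcases mul_eq_zero.1 h2 with h3 | h3
  · exact two_ne_zero h3
  · exact hx h3

theorem od_smul {φ : 𝓞 K →+* ℂ} (hφ : φ δ = sq q) {L : Submodule ℤ ℂ} (hs : HasSq q L) {x : 𝓞 K}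
    (hx : Od δ x) : ∀ z ∈ L, φ x * z ∈ L := by
  obtain ⟨a, b, rfl⟩ := hx
  intro z hz
  rw [phi_od hφ]
  exact (IsMul.add (IsMul.int L a) (IsMul.mul (IsMul.int L b) hs)) z hz

/-- the lattice `(L : I ∩ ℤ[δ])` -/
def LI (φ : 𝓞 K →+* ℂ) (δ : 𝓞 K) (L : Submodule ℤ ℂ) (I : Ideal (𝓞 K)) : Submodule ℤ ℂ where
  carrier := {z | ∀ x ∈ I, Od δ x → φ x * z ∈ L}
  add_mem' := fun ha hb x hx hxo => by
    rw [mul_add]
    exact L.add_mem (ha x hx hxo) (hb x hx hxo)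
  zero_mem' := fun x _ _ => by
    rw [mul_zero]
    exact L.zero_mem
  smul_mem' := fun n z hz x hx hxo => by
    rw [mul_smul_comm]
    exact L.smul_mem n (hz x hx hxo)

theorem mem_LI {φ : 𝓞 K →+* ℂ} {L : Submodule ℤ ℂ} {I : Ideal (𝓞 K)} {z : ℂ} :
    z ∈ LI φ δ L I ↔ ∀ x ∈ I, Od δ x → φ x * z ∈ L := Iff.rfl

theorem le_LI {φ : 𝓞 K →+* ℂ} (hφ : φ δ = sq q) {L : Submodule ℤ ℂ} (hs : HasSq q L)
    (I : Ideal (𝓞 K)) : L ≤ LI φ δ L I := fun z hz x _ hxo => od_smul hφ hs hxo z hz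

theorem LI_hasSq (h : Quad K q δ) {φ : 𝓞 K →+* ℂ} (hφ : φ δ = sq q) (L : Submodule ℤ ℂ)
    (I : Ideal (𝓞 K)) : HasSq q (LI φ δ L I) := by
  intro z hz x hx hxo
  have h1 := hz (x * δ) (I.mul_mem_right δ hx) (hxo.mul h Od.delta)
  rw [map_mul, hφ] at h1
  rwa [mul_assoc] at h1

theorem LI_smul {φ : 𝓞 K →+* ℂ} {L : Submodule ℤ ℂ} {c : ℂ} (hc : c ≠ 0) (I : Ideal (𝓞 K)) :
    LI φ δ (c • L) I = c • LI φ δ L I := by
  ext z
  rw [mem_smul' hc, mem_LI, mem_LI]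
  refine forall_congr' fun x => forall_congr' fun _ => forall_congr' fun _ => ?_
  rw [mem_smul' hc]
  have e : c⁻¹ * (φ x * z) = φ x * (c⁻¹ * z) := by ring
  rw [e]

theorem LI_span (h : Quad K q δ) {φ : 𝓞 K →+* ℂ} (hφ : φ δ = sq q) {L : Submodule ℤ ℂ}
    (hs : HasSq q L) {γ : 𝓞 K} (hγ : U2 γ) :
    LI φ δ L (Ideal.span {γ}) = (φ γ)⁻¹ • L := by
  have hγ0 : φ γ ≠ 0 := phi_ne_zero h hφ (u2_ne_zero h hγ)
  ext z
  rw [mem_smul' (inv_ne_zero hγ0), inv_inv, mem_LI]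
  constructor
  · intro h1
    exact h1 γ (Ideal.mem_span_singleton_self γ) (Od.of_u2 h hγ)
  · intro h1 x hx hxo
    obtain ⟨w, rfl⟩ := Ideal.mem_span_singleton'.1 hx
    have hw : Od δ w := by
      obtain ⟨y, hy⟩ := hγ
      have e : w = w * γ - 2 * (y * w) := by
        rw [hy]
        ring
      rw [e]
      exact hxo.sub (Od.two_mul h _)
    have h2 := od_smul hφ hs hw _ h1
    rw [map_mul, mul_assoc]
    exact h2

theorem LI_top (h : Quad K q δ) {φ : 𝓞 K →+* ℂ} (hφ : φ δ = sq q) {L : Submodule ℤ ℂ}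
    (hs : HasSq q L) : LI φ δ L ⊤ = L := by
  apply le_antisymm
  · intro z hz
    have h1 := hz 1 trivial Od.one
    rwa [map_one, one_mul] at h1
  · exact le_LI hφ hs ⊤

end Pool.Agent.SS.KB
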