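import Mathlib
import Pool.Agent.Work.MP_a5099b_nt.K.KDefs

/-!
# Module K/Emb (size S-M)

There is a ring homomorphism `ψ : K →+* ℂ` (number field; `NumberField.Embeddings` is nonempty, or `IsAlgClosed.lift`). `ψ δ * ψ δ = -q = sq q * sq q` (`h.sq`, `sq_mul_self`), so `ψ δ = sq q`
or `ψ δ = -sq q` (`mul_self_eq_mul_self_iff`). In the second case compose with the complex conjugation `starRingEnd ℂ` (`conj_sq`). Restrict to `𝓞 K` (`ψ.comp (algebraMap (𝓞 K) K)`).
-/

set_option autoImplicit false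
set_option linter.unusedSectionVars false

namespace Pool.Agent.SS.KB

open NumberField
open Pool.Agent.Work.CM
open Pool.Agent.Work.MP_a5099b_nt
open Pool.Agent.Work.MP_a5099b_nt.PrF (Quad U2 Sm Rel Cls)
open Pool.Agent.SS.HB
open scoped Pointwise

variable {K : Type} [Field K] [NumberField K] {q : ℕ} {δ : 𝓞 K}

theorem exists_emb (h : Quad K q δ) : ∃ φ : 𝓞 K →+* ℂ, φ δ = sq q := by
  obtain ⟨ψ⟩ : Nonempty (K →+* ℂ) := inferInstance
  have h1 : ψ (algebraMap (𝓞 K) K δ) * ψ (algebraMap (𝓞 K) K δ) = sq q * sq q := by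
    rw [← map_mul, ← map_mul, h.sq, sq_mul_self]
    simp
  rcases mul_self_eq_mul_self_iff.mp h1 with h2 | h2
  · exact ⟨ψ.comp (algebraMap (𝓞 K) K), h2⟩
  · refine ⟨((starRingEnd ℂ).comp ψ).comp (algebraMap (𝓞 K) K), ?_⟩
    show starRingEnd ℂ (ψ (algebraMap (𝓞 K) K δ)) = sq q
    rw [h2, map_neg, conj_sq, neg_neg]

end Pool.Agent.SS.KB
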