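import Mathlib
import Pool.Agent.Work.MP_a5099b_nt.K.KDefs
import Pool.Agent.Work.MP_a5099b_nt.H.Sand

/-!
# Module K/LLat (size S-M)

* `exists_u2`: `u = absNorm I` (as an element of `𝓞 K`), `Ideal.absNorm_mem`; an odd natural number is `1 + 2 k`.
* `LI_lat`: `n = absNorm I` is a nonzero natural number in `I` (`Ideal.absNorm_mem`, `Ideal.absNorm_eq_zero_iff`), so `n * z ∈ L` for `z ∈ LI φ δ L I` (`Od.nat`, `map_natCast`), i.e. `LI φ δ L I ≤ (n : ℂ)⁻¹ • L`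
  (`mem_smul'`), and `L ≤ LI φ δ L I` (`le_LI`). `isLat_between` (H/Sand), `IsLat.smul`.
-/

set_option autoImplicit false
set_option linter.unusedSectionVars false

namespace Pool.Agent.SS.KB

open NumberField
open Pool.Agent.Work.CM
open Pool.Agent.Work.MP_a5099b_nt
open Pool.Agent.Work.MP_a5099b_nt.PrF (Quad U2 Sm Rel Cls)
open Pool.Agent.SS.HB
open scoped Pointwise

variable {K : Type} [Field K] [NumberField K] {q : ℕ} {δ : 𝓞 K}

theorem exists_u2 (I : Ideal (𝓞 K)) (hodd : Odd (Ideal.absNorm I)) : ∃ u ∈ I, U2 u := by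
  obtain ⟨k, hk⟩ := hodd
  refine ⟨(Ideal.absNorm I : 𝓞 K), Ideal.absNorm_mem I, (k : 𝓞 K), ?_⟩
  rw [hk]
  push_cast
  ring

theorem LI_lat (h : Quad K q δ) {φ : 𝓞 K →+* ℂ} (hφ : φ δ = sq q) {L : Submodule ℤ ℂ} (hL : IsLat L)
    (hs : HasSq q L) {I : Ideal (𝓞 K)} (hI : I ≠ ⊥) : IsLat (LI φ δ L I) := by
  have hn0 : Ideal.absNorm I ≠ 0 := fun h0 => hI (Ideal.absNorm_eq_zero_iff.1 h0)
  have hn : ((Ideal.absNorm I : ℕ) : ℂ) ≠ 0 := Nat.cast_ne_zero.2 hn0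
  refine isLat_between hL (hL.smul (inv_ne_zero hn)) (le_LI hφ hs I) fun z hz => ?_
  rw [mem_smul' (inv_ne_zero hn), inv_inv]
  have h1 := hz _ (Ideal.absNorm_mem I) (Od.nat _)
  rwa [map_natCast] at h1

end Pool.Agent.SS.KB
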