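import Mathlib
import Pool.Agent.Work.MP_a5099b_nt.K.KDefs

/-!
# Module K/LMul (size M): `(L_I)_J = L_(IJ)` for ideals prime to 2

`z ∈ LI (LI L I) J` iff `φ x * (φ y * z) ∈ L` for all `x ∈ I`, `y ∈ J`, `Od x`, `Od y`.
(⊇) `x * y ∈ I * J` and `Od (x * y)` (`Od.mul`).
(⊆) Let `z` be in the left side, `v ∈ I * J`, `Od v`. Write `u = 1 + 2 a`, `w = 1 + 2 b`, so `u * w = 1 + 2 o` with `o = a + b + 2 a b`, and
`v = (2 o)^2 v + (u w) v (2 - u w)` because `1 - u w = -2 o`.
* For ALL `v ∈ I * J`: `φ ((2 o)^2 * v) * z ∈ L`: `Submodule.mul_induction_on`; for `v = x * y`: `(2 o)^2 x y = (2 (o x)) (2 (o y))`, both factors satisfy `Od` (`Od.two_mul`), lie in `I`, `J`.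
* `u v (2 - u w) ∈ I`, `Od` of it (`Od.of_u2 h`, `Od.two`, `Od.mul`, `Od.sub`), `w ∈ J`, `Od w`; so `φ ((u v (2 - u w)) * w) * z ∈ L`.
-/

set_option autoImplicit false
set_option linter.unusedSectionVars false

namespace Pool.Agent.SS.KB

open NumberField
open Pool.Agent.Work.CM
open Pool.Agent.Work.MP_a5099b_nt
open Pool.Agent.Work.MP_a5099b_nt.PrF (Quad U2 Sm Rel Cls)
open Pool.Agent.SS.HB
open scoped Pointwise

variable {K : Type} [Field K] [NumberField K] {q : ℕ} {δ : 𝓞 K}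

theorem LI_mul (h : Quad K q δ) {φ : 𝓞 K →+* ℂ} {L : Submodule ℤ ℂ}
    {I J : Ideal (𝓞 K)} {u w : 𝓞 K} (hu : u ∈ I) (hu2 : U2 u) (hw : w ∈ J) (hw2 : U2 w) :
    LI φ δ (LI φ δ L I) J = LI φ δ L (I * J) := by
  apply le_antisymm
  · intro z hz
    rw [mem_LI]
    intro v hv hvo
    have hz' : ∀ y ∈ J, Od δ y → ∀ x ∈ I, Od δ x → φ (x * y) * z ∈ L := by
      intro y hy hyo x hx hxo
      have h1 := mem_LI.1 (mem_LI.1 hz y hy hyo) x hx hxo
      rwa [← mul_assoc, ← map_mul] at h1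
    have huo := Od.of_u2 h hu2
    have hwo := Od.of_u2 h hw2
    obtain ⟨a, ha⟩ := hu2
    obtain ⟨b, hb⟩ := hw2
    set o : 𝓞 K := a + b + 2 * a * b with ho
    have huw : u * w = 1 + 2 * o := by
      rw [ha, hb, ho]
      ring
    have hA : ∀ v ∈ I * J, φ ((2 * o) ^ 2 * v) * z ∈ L := by
      intro v hv
      refine Submodule.mul_induction_on hv ?_ ?_
      · intro x hx y hy
        have e : (2 * o) ^ 2 * (x * y) = (2 * (o * x)) * (2 * (o * y)) := by ring
        rw [e]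
        exact hz' _ (J.mul_mem_left _ (J.mul_mem_left _ hy)) (Od.two_mul h _) _
          (I.mul_mem_left _ (I.mul_mem_left _ hx)) (Od.two_mul h _)
      · intro x y hx hy
        rw [mul_add, map_add, add_mul]
        exact L.add_mem hx hy
    have hB : φ (u * v * (2 - u * w) * w) * z ∈ L := by
      refine hz' w hw hwo _ ?_ ?_
      · exact I.mul_mem_right _ (I.mul_mem_right _ hu)
      · exact (huo.mul h hvo).mul h (Od.two.sub (huo.mul h hwo))
    have e : v = (2 * o) ^ 2 * v + u * v * (2 - u * w) * w := by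
      have e1 : 2 * o = u * w - 1 := by rw [huw]; ring
      rw [e1]
      ring
    rw [e, map_add, add_mul]
    exact L.add_mem (hA v hv) hB
  · intro z hz
    rw [mem_LI]
    intro y hy hyo
    rw [mem_LI]
    intro x hx hxo
    rw [← mul_assoc, ← map_mul]
    exact mem_LI.1 hz _ (Ideal.mul_mem_mul hx hy) (hxo.mul h hyo)

end Pool.Agent.SS.KB
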