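import Mathlib

/-!
# Module K/Jac2 (size S-M, Mathlib only): `(-q/l) = (l/q)` for `q ≡ 3 mod 4`

`jacobiSym (-q) l = jacobiSym (-1) l * jacobiSym q l` (`jacobiSym.mul_left`), `jacobiSym (-1) l = χ₄ l` (`jacobiSym.at_neg_one`), `jacobiSym.quadratic_reciprocity` (`_three_mod_four`, `_one_mod_four`); model: H/Jac.lean.
Two cases `l % 4 = 1`, `l % 4 = 3`. `jacobiSym.legendreSym.to_jacobiSym` : `legendreSym p a = J(a | p)`.
-/

set_option autoImplicit false
set_option linter.unusedSectionVars false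

namespace Pool.Agent.SS.KB


theorem jac_eq {q l : ℕ} [Fact q.Prime] (hq4 : q % 4 = 3) (hl : l.Prime) (hl2 : l ≠ 2)
    (hlq : l ≠ q) : jacobiSym (-q) l = legendreSym q l := by
  have hodd : Odd l := hl.odd_of_ne_two hl2
  rw [jacobiSym.legendreSym.to_jacobiSym, jacobiSym.neg _ hodd]
  rcases Nat.odd_mod_four_iff.1 (Nat.odd_iff.1 hodd) with h1 | h3
  · rw [ZMod.χ₄_nat_one_mod_four h1, one_mul]
    exact jacobiSym.quadratic_reciprocity_one_mod_four' (Nat.odd_iff.2 (by omega)) h1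
  · rw [ZMod.χ₄_nat_three_mod_four h3, jacobiSym.quadratic_reciprocity_three_mod_four hq4 h3]
    ring

end Pool.Agent.SS.KB
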