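import Mathlib
import Pool.Agent.Work.MP_a5099b_nt.K.KDefs
import Pool.Agent.Work.MP_a5099b_nt.K.Eig
import Pool.Agent.Work.MP_a5099b_nt.K.LLat
import Pool.Agent.Work.MP_a5099b_nt.H.Sand
import Pool.Agent.Work.MP_a5099b_nt.H.Cov
import Pool.Agent.Work.MP_a5099b_nt.H.Gen

/-!
# Module K/PSup (size M): `L_P` is a superlattice of index `l`

`D := LI φ δ L P`. `L ≤ D` (`le_LI`), `D ≤ (l : ℂ)⁻¹ • L` (`mem_LI_prime`, `mem_smul'`), `IsLat D` (`LI_lat`, `P ≠ ⊥` because its norm is not 0). `exists_sup` twice: `Sup n L D`, `Sup n' D (l⁻¹ • L)`, and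
`cov L = n cov D = n n' cov (l⁻¹ • L) = n n' l^(-2) cov L` (`cov_sup`, `cov_smul`, `cov_pos`), so `n * n' = l ^ 2`, `n ∈ {1, l, l^2}` (`Nat.dvd_prime_pow`, k ≤ 2).
* `no_mul` (private): `(sq q + e) / l` is no multiplier of `L`, for no integer `e`: `two_mul_eq` (H/Gen) gives `2 * ((sq q + e) / l) = x + y * sq q`; imaginary parts (`sq_im`, `sq_re`, `√q ≠ 0`): `2 = l * y`, impossible for a prime `l ≠ 2`.
* `n = 1`: `D = L` (`sup_one`). For `z ∈ L` let `w = (sq q + e) / l * z`: `l w ∈ L` and `(sq q - e) w = -((q + e^2) / l) z ∈ L` (`sq_mul_self`, `l ∣ e^2 + q`), so `w ∈ D = L`: `(sq q + e) / l` would be a multiplier.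
* `n = l ^ 2`: `n' = 1`, `D = l⁻¹ • L`, so for `z ∈ L`: `(sq q - e) (l⁻¹ z) ∈ L`: `(sq q - e) / l` would be a multiplier.
So `n = l`.
-/

set_option autoImplicit false
set_option linter.unusedSectionVars false

namespace Pool.Agent.SS.KB

open NumberField
open Pool.Agent.Work.CM
open Pool.Agent.Work.MP_a5099b_nt
open Pool.Agent.Work.MP_a5099b_nt.PrF (Quad U2 Sm Rel Cls)
open Pool.Agent.SS.HB
open scoped Pointwise

variable {K : Type} [Field K] [NumberField K] {q : ℕ} {δ : 𝓞 K}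

private theorem PSup_no_mul {q : ℕ} (hq : q.Prime) {L : Submodule ℤ ℂ} (hL : IsLat L)
    (hs : HasSq q L) {l : ℕ} (hl : l.Prime) (hl2 : l ≠ 2) (e : ℤ) :
    ¬ IsMul L ((sq q + e) / l) := by
  intro hμ
  obtain ⟨x, y, n, h1, -, -⟩ := two_mul_eq hq hL hs hμ
  have hl0 : (l : ℂ) ≠ 0 := by exact_mod_cast hl.ne_zero
  have h2 : 2 * (sq q + e) = l * (x + y * sq q) := by
    rw [← h1]
    field_simp
  have hsq : Real.sqrt q ≠ 0 := by
    rw [Real.sqrt_ne_zero']
    exact_mod_cast hq.pos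
  have him := congrArg Complex.im h2
  have e1 : (2 * (sq q + (e : ℂ))).im = 2 * Real.sqrt q := by
    simp [Complex.mul_im, sq_im]
  have e2 : ((l : ℂ) * ((x : ℂ) + (y : ℂ) * sq q)).im = (l * y) * Real.sqrt q := by
    simp [Complex.mul_im, sq_im, sq_re]
    ring
  rw [e1, e2] at him
  have h3 := mul_right_cancel₀ hsq him
  have h4 : (2 : ℤ) = l * y := by exact_mod_cast h3
  have h5 : (l : ℤ) ∣ 2 := ⟨y, h4⟩
  have h6 : l ∣ 2 := by exact_mod_cast h5
  exact hl2 ((Nat.prime_dvd_prime_iff_eq hl Nat.prime_two).1 h6)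

theorem LI_sup (h : Quad K q δ) {φ : 𝓞 K →+* ℂ} (hφ : φ δ = sq q) {L : Submodule ℤ ℂ} (hL : IsLat L)
    (hs : HasSq q L) {l : ℕ} (hl : l.Prime) (hl2 : l ≠ 2) (hlq : l ≠ q) {P : Ideal (𝓞 K)}
    (hP : Ideal.absNorm P = l) : Sup l L (LI φ δ L P) := by
  obtain ⟨e, he, -, ⟨c, hc⟩, hlP⟩ := exists_e h hl hlq hP
  have hmem := fun z : ℂ => mem_LI_prime (L := L) hφ he hlP (z := z)
  have hPne : P ≠ ⊥ := by
    rintro rfl
    rw [Ideal.absNorm_bot] at hP
    exact hl.ne_zero hP.symm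
  have hD := LI_lat h hφ hL hs hPne
  have hle1 : L ≤ LI φ δ L P := le_LI hφ hs P
  have hlc : (l : ℂ) ≠ 0 := by exact_mod_cast hl.ne_zero
  have hle2 : LI φ δ L P ≤ ((l : ℂ)⁻¹) • L := fun z hz => by
    rw [mem_smul' (inv_ne_zero hlc), inv_inv]
    exact ((hmem z).1 hz).1
  have hL2 : IsLat (((l : ℂ)⁻¹) • L) := hL.smul (inv_ne_zero hlc)
  obtain ⟨n, hn0, hn⟩ := exists_sup hL hD hle1
  obtain ⟨n', hn0', hn'⟩ := exists_sup hD hL2 hle2
  have c1 := cov_sup hn
  have c2 := cov_sup hn'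
  have c3 := cov_smul hL (inv_ne_zero hlc)
  have hlr : (l : ℝ) ≠ 0 := by exact_mod_cast hl.ne_zero
  have hnorm : ‖((l : ℂ)⁻¹)‖ = (l : ℝ)⁻¹ := by
    rw [norm_inv, Complex.norm_natCast]
  rw [c2, c3, hnorm] at c1
  have hcov := (cov_pos hL).ne'
  have hnn : (n : ℝ) * n' = l ^ 2 := by
    have h1 : cov L * l ^ 2 = (n * n') * cov L := by
      conv_lhs => rw [c1]
      field_simp
    have h2 : cov L * ((n : ℝ) * n') = cov L * l ^ 2 := by
      rw [h1]
      ring
    exact mul_left_cancel₀ hcov h2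
  have hnn' : n * n' = l ^ 2 := by exact_mod_cast hnn
  obtain ⟨k, hk, hnk⟩ := (Nat.dvd_prime_pow hl).1 (Dvd.intro _ hnn')
  have hnomul := PSup_no_mul h.prime hL hs hl hl2
  have hk3 : k = 0 ∨ k = 1 ∨ k = 2 := by omega
  rcases hk3 with rfl | rfl | rfl
  · exfalso
    rw [pow_zero] at hnk
    subst hnk
    have hDL := sup_one hn
    apply hnomul e
    intro z hz
    have hw : (sq q + (e : ℂ)) / l * z ∈ LI φ δ L P := by
      rw [hmem]
      constructor
      · have e1 : (l : ℂ) * ((sq q + (e : ℂ)) / l * z) = sq q * z + (e : ℂ) * z := by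
          field_simp
        rw [e1]
        exact L.add_mem (hs z hz) (IsMul.int L e z hz)
      · have e1 : (sq q - (e : ℂ)) * ((sq q + (e : ℂ)) / l * z) = ((-c : ℤ) : ℂ) * z := by
          have e2 : (e : ℂ) ^ 2 + q = l * c := by exact_mod_cast hc
          have e3 := sq_mul_self q
          have e4 : (sq q - (e : ℂ)) * (sq q + (e : ℂ)) = -(l * c) := by
            linear_combination e3 - e2
          calc (sq q - (e : ℂ)) * ((sq q + (e : ℂ)) / l * z) =
              ((sq q - (e : ℂ)) * (sq q + (e : ℂ))) / l * z := by ring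
            _ = ((-c : ℤ) : ℂ) * z := by
              rw [e4]
              push_cast
              field_simp
        rw [e1]
        exact IsMul.int L (-c) z hz
    rw [← hDL] at hw
    exact hw
  · rw [pow_one] at hnk
    rw [hnk] at hn
    exact hn
  · exfalso
    have hn1 : n' = 1 := by
      rw [hnk] at hnn'
      have h0 : 0 < l ^ 2 := pow_pos hl.pos 2
      exact Nat.eq_of_mul_eq_mul_left h0 (by rw [hnn', mul_one])
    rw [hn1] at hn'
    have hDL := sup_one hn'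
    apply hnomul (-e)
    intro z hz
    have hw : (l : ℂ)⁻¹ * z ∈ LI φ δ L P := by
      rw [hDL, mem_smul' (inv_ne_zero hlc), inv_inv, ← mul_assoc, mul_inv_cancel₀ hlc, one_mul]
      exact hz
    have h1 := ((hmem _).1 hw).2
    have e1 : (sq q + ((-e : ℤ) : ℂ)) / l * z = (sq q - (e : ℂ)) * ((l : ℂ)⁻¹ * z) := by
      push_cast
      ring
    rw [e1]
    exact h1

end Pool.Agent.SS.KB
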