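import Mathlib
import Pool.Agent.Work.MP_a5099b_nt.K.KDefs
import Pool.Agent.Work.MP_a5099b_nt.K.Eig
import Pool.Agent.Work.MP_a5099b_nt.K.PSup
import Pool.Agent.Work.MP_a5099b_nt.H.Sand
import Pool.Agent.Work.MP_a5099b_nt.H.Eigen
import Pool.Agent.Work.MP_a5099b_nt.I.CConj

/-!
# Module K/PTwo (size S-M): the stable superlattices of index `l` are `L_P` and `L_P'`, `P'` the conjugate ideal

Let `P' = P.map (conj h)`, `absNorm P' = l` (`PrF.absNorm_conj`).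
* `LI_ne`: let `e` be as in `exists_e` for `P`. `δ - e ∈ P`, so `-δ - e = conj h (δ - e) ∈ P'` (`PrF.conj_δ`, `Ideal.mem_map_of_mem`, `map_intCast`), i.e. `δ + e ∈ P'`. If `LI L P = LI L P'`: for `z` in it, `l z ∈ L`, `(sq q - e) z ∈ L`,
  `(sq q + e) z ∈ L` (`mem_LI` with `x = δ + e`, `Od`), so `2 e z ∈ L` and, `l` being prime to `2 e`, `z ∈ L` (Bezout). So `LI L P = L` (`le_LI`), but `Sup l L (LI L P)` has index `l ≠ 1` (`relIndex_self`, or `cov_sup`).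
* `stable_eq`: `stable_three` (H/Eigen) for `L', LI L P, LI L P'` (`LI_sup`, `LI_hasSq`) and `LI_ne`.
-/

set_option autoImplicit false
set_option linter.unusedSectionVars false

namespace Pool.Agent.SS.KB

open NumberField
open Pool.Agent.Work.CM
open Pool.Agent.Work.MP_a5099b_nt
open Pool.Agent.Work.MP_a5099b_nt.PrF (Quad U2 Sm Rel Cls)
open Pool.Agent.SS.HB
open scoped Pointwise

variable {K : Type} [Field K] [NumberField K] {q : ℕ} {δ : 𝓞 K}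

theorem LI_ne (h : Quad K q δ) {φ : 𝓞 K →+* ℂ} (hφ : φ δ = sq q) {L : Submodule ℤ ℂ} (hL : IsLat L)
    (hs : HasSq q L) {l : ℕ} (hl : l.Prime) (hl2 : l ≠ 2) (hlq : l ≠ q) {P : Ideal (𝓞 K)}
    (hP : Ideal.absNorm P = l) :
    LI φ δ L P ≠ LI φ δ L (P.map (PrF.conj h : 𝓞 K →+* 𝓞 K)) := by
  intro heq
  obtain ⟨e, he, hne, hdiv, hlP⟩ := exists_e h hl hlq hP
  have hmem : δ + (e : 𝓞 K) ∈ P.map (PrF.conj h : 𝓞 K →+* 𝓞 K) := by
    have h1 := Ideal.mem_map_of_mem (PrF.conj h : 𝓞 K →+* 𝓞 K) he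
    have h2 : (PrF.conj h : 𝓞 K →+* 𝓞 K) (δ - (e : 𝓞 K)) = -(δ + (e : 𝓞 K)) := by
      rw [RingEquiv.coe_toRingHom, map_sub, PrF.conj_δ, map_intCast]
      ring
    rw [h2] at h1
    exact (Ideal.neg_mem_iff _).1 h1
  have hcop : IsCoprime (l : ℤ) (2 * e) := by
    rw [Prime.coprime_iff_not_dvd (Nat.prime_iff_prime_int.1 hl)]
    intro hd
    rcases (Nat.prime_iff_prime_int.1 hl).dvd_or_dvd hd with h3 | h3
    · have h4 : l ∣ 2 := by exact_mod_cast h3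
      exact hl2 ((Nat.prime_dvd_prime_iff_eq hl Nat.prime_two).1 h4)
    · exact hne h3
  obtain ⟨a, b, hab⟩ := hcop
  have hle : LI φ δ L P ≤ L := by
    intro z hz
    obtain ⟨h1, h2⟩ := (mem_LI_prime hφ he hlP).1 hz
    have hz2 := hz
    rw [heq] at hz2
    have h3 := hz2 (δ + (e : 𝓞 K)) hmem ⟨e, 1, by push_cast; ring⟩
    rw [map_add, hφ, map_intCast] at h3
    have h4 : ((a * l + b * (2 * e) : ℤ) : ℂ) = 1 := by rw [hab]; simp
    have h5 : z = (a : ℂ) * ((l : ℂ) * z) + (b : ℂ) * ((sq q + e) * z - (sq q - e) * z) := by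
      push_cast at h4
      linear_combination (-z) * h4
    rw [h5]
    have hi : ∀ (n : ℤ) {w : ℂ}, w ∈ L → (n : ℂ) * w ∈ L := by
      intro n w hw
      rw [← zsmul_eq_mul]
      exact L.smul_mem n hw
    exact L.add_mem (hi a h1) (hi b (L.sub_mem h3 h2))
  have hS := LI_sup h hφ hL hs hl hl2 hlq hP
  have h1 : L.toAddSubgroup.relIndex (LI φ δ L P).toAddSubgroup = 1 :=
    AddSubgroup.relIndex_eq_one.2 hle
  rw [hS.idx] at h1
  exact hl.one_lt.ne' h1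

theorem stable_eq (h : Quad K q δ) {φ : 𝓞 K →+* ℂ} (hφ : φ δ = sq q) {L : Submodule ℤ ℂ}
    (hL : IsLat L) (hs : HasSq q L) {l : ℕ} (hl : l.Prime) (hl2 : l ≠ 2) (hlq : l ≠ q)
    {P : Ideal (𝓞 K)} (hP : Ideal.absNorm P = l) {L' : Submodule ℤ ℂ} (hL' : Sup l L L')
    (hs' : HasSq q L') :
    L' = LI φ δ L P ∨ L' = LI φ δ L (P.map (PrF.conj h : 𝓞 K →+* 𝓞 K)) := by
  have hP' : Ideal.absNorm (P.map (PrF.conj h : 𝓞 K →+* 𝓞 K)) = l := by
    rw [PrF.absNorm_conj, hP]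
  rcases stable_three h.prime hl hl2 hlq hs hL' (LI_sup h hφ hL hs hl hl2 hlq hP)
    (LI_sup h hφ hL hs hl hl2 hlq hP') hs' (LI_hasSq h hφ L P) (LI_hasSq h hφ L _) with h1 | h1 | h1
  · exact Or.inl h1
  · exact Or.inr h1
  · exact absurd h1 (LI_ne h hφ hL hs hl hl2 hlq hP)

end Pool.Agent.SS.KB
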