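import Mathlib

/-!
# Module K/Grp1 (size S-M, Mathlib only): the two cosets have the same size

`nm u = r = nm u'`, `T u = a`, `T u' = a'`. The map `g ↦ g * (u⁻¹ * u')` is a bijection from `{g | nm g = r ∧ T g = a}` to `{g | nm g = r ∧ T g = a'}` with inverse `g ↦ g * (u'⁻¹ * u)`:
if `T g = a = T u` then `T (g * (u⁻¹ * u')) = T (u * (u⁻¹ * u')) = T u' = a'` (`hT`), and conversely; `nm (g * (u⁻¹ * u')) = r`. So both sets have `s` elements (`Finset.card_bij'` or `card_nbij'`); they are disjoint (`a ≠ a'`), and the sum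
is the number of the elements of the union (`Finset.sum_boole`, `Finset.filter_or`, `Finset.card_union_of_disjoint`).
-/

set_option autoImplicit false
set_option linter.unusedSectionVars false

namespace Pool.Agent.SS.KB


open Classical in
theorem sum_two {G U : Type} [CommGroup G] [Fintype G] [CommGroup U] (nm : G →* U) (r : U)
    (T : G → ℂ) {a a' : ℂ} (hT : ∀ g g' k : G, T g = T g' → T (g * k) = T (g' * k)) (hne : a ≠ a')
    (hu : ∃ u, nm u = r ∧ T u = a) (hu' : ∃ u, nm u = r ∧ T u = a') :
    ∃ s : ℕ, ∑ g ∈ Finset.univ.filter (fun g => nm g = r), (if T g = a ∨ T g = a' then 1 else 0) =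
      2 * s := by
  obtain ⟨u, hur, hua⟩ := hu
  obtain ⟨u', hur', hua'⟩ := hu'
  have hcard : (Finset.univ.filter (fun g => nm g = r ∧ T g = a)).card =
      (Finset.univ.filter (fun g => nm g = r ∧ T g = a')).card := by
    refine Finset.card_nbij' (fun g => g * (u⁻¹ * u')) (fun g => g * (u'⁻¹ * u)) ?_ ?_ ?_ ?_
    · intro g hg
      simp only [Finset.coe_filter, Finset.mem_univ, true_and, Set.mem_ofPred_eq] at hg ⊢
      refine ⟨?_, ?_⟩
      · rw [map_mul, map_mul, map_inv, hg.1, hur, hur', inv_mul_cancel, mul_one]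
      · rw [hT g u _ (hg.2.trans hua.symm), mul_inv_cancel_left, hua']
    · intro g hg
      simp only [Finset.coe_filter, Finset.mem_univ, true_and, Set.mem_ofPred_eq] at hg ⊢
      refine ⟨?_, ?_⟩
      · rw [map_mul, map_mul, map_inv, hg.1, hur, hur', inv_mul_cancel, mul_one]
      · rw [hT g u' _ (hg.2.trans hua'.symm), mul_inv_cancel_left, hua]
    · intro g _
      simp only
      group
    · intro g _
      simp only
      group
  refine ⟨(Finset.univ.filter (fun g => nm g = r ∧ T g = a)).card, ?_⟩
  rw [Finset.sum_boole, Finset.filter_filter]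
  have hsplit : (Finset.univ.filter (fun g => nm g = r ∧ (T g = a ∨ T g = a'))) =
      (Finset.univ.filter (fun g => nm g = r ∧ T g = a)) ∪
        (Finset.univ.filter (fun g => nm g = r ∧ T g = a')) := by
    ext g
    simp only [Finset.mem_filter, Finset.mem_univ, true_and, Finset.mem_union]
    tauto
  rw [hsplit, Finset.card_union_of_disjoint, ← hcard, two_mul, Nat.cast_id]
  rw [Finset.disjoint_filter]
  rintro g _ ⟨_, h1⟩ ⟨_, h2⟩
  exact hne (h1.symm.trans h2)

end Pool.Agent.SS.KB
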