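import Mathlib

/-!
# Module K/Grp2 (size M, Mathlib only): the fixed point of the involution

`H = nm.ker` has no element of order 2 (`hodd`), so squaring `w ↦ w * w` is injective on the finite group `H` (`(w w'⁻¹)^2 = 1`), hence surjective onto `H` (`Finite.injective_iff_surjective`).
* `exists_fix`: take `u` with `nm u = r`. `nm (u * u * nu⁻¹) = 1`, so `u * u * nu⁻¹ = w * w` with `w ∈ H`; `g₀ = u * w⁻¹`. Uniqueness: if `nm g = r`, `g * g = nu`: `(g * g₀⁻¹)^2 = 1` and `nm (g * g₀⁻¹) = 1`.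
* `fix_mem`: the set `A = {g | T g = a}` (`a = T 1`) is a subgroup: if `T g = T 1` then `T (g * k) = T k` for all `k`. Let `u ∈ A`, `nm u = r` and `t = u⁻¹ * g₀`, `nm t = 1`, `t * t = u⁻¹ * u⁻¹ * nu ∈ A`. `A ⊓ H` is a finite group in which squaring is injective, so
`t * t = s * s` with `s ∈ A ⊓ H`, and `t = s` (`(t s⁻¹)^2 = 1`, `nm (t s⁻¹) = 1`). So `t ∈ A`, `g₀ = u * t ∈ A`.
-/

set_option autoImplicit false
set_option linter.unusedSectionVars false

namespace Pool.Agent.SS.KB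


variable {G U : Type} [CommGroup G] [Fintype G] [CommGroup U]

omit [Fintype G] in
private theorem sq_inj {S : Subgroup G} (hS : ∀ g ∈ S, g * g = 1 → g = 1) {w w' : G} (hw : w ∈ S)
    (hw' : w' ∈ S) (h : w * w = w' * w') : w = w' := by
  have h1 : (w * w'⁻¹) * (w * w'⁻¹) = 1 := by
    have : (w * w'⁻¹) * (w * w'⁻¹) = (w * w) * (w' * w')⁻¹ := by
      rw [mul_inv]
      rw [mul_mul_mul_comm]
    rw [this, h, mul_inv_cancel]
  have h2 := hS _ (S.mul_mem hw (S.inv_mem hw')) h1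
  exact mul_inv_eq_one.1 h2

private theorem sq_surj {S : Subgroup G} (hS : ∀ g ∈ S, g * g = 1 → g = 1) {s : G} (hs : s ∈ S) :
    ∃ w ∈ S, w * w = s := by
  let f : S → S := fun w => w * w
  have hf : Function.Injective f := by
    intro w w' h
    apply Subtype.ext
    exact sq_inj hS w.2 w'.2 (congrArg Subtype.val h)
  obtain ⟨w, hw⟩ := (Finite.injective_iff_surjective.1 hf) ⟨s, hs⟩
  exact ⟨w, w.2, congrArg Subtype.val hw⟩

private theorem ker_odd {nm : G →* U} (hodd : ∀ g, nm g = 1 → g * g = 1 → g = 1) :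
    ∀ g ∈ nm.ker, g * g = 1 → g = 1 := fun g hg h => hodd g (MonoidHom.mem_ker.1 hg) h

theorem exists_fix (nm : G →* U) (r : U) (nu : G) (hnu : nm nu = r * r)
    (hodd : ∀ g, nm g = 1 → g * g = 1 → g = 1) (hu : ∃ u, nm u = r) :
    ∃ g₀, nm g₀ = r ∧ g₀ * g₀ = nu ∧ ∀ g, nm g = r → g * g = nu → g = g₀ := by
  obtain ⟨u, hu⟩ := hu
  have h1 : u * u * nu⁻¹ ∈ nm.ker := by
    rw [MonoidHom.mem_ker, map_mul, map_mul, map_inv, hnu, hu, mul_inv_cancel]
  obtain ⟨w, hw, hw2⟩ := sq_surj (ker_odd hodd) h1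
  have hw1 := MonoidHom.mem_ker.1 hw
  have h3 : (u * w⁻¹) * (u * w⁻¹) = nu := by
    rw [mul_mul_mul_comm, ← mul_inv, hw2, mul_inv, inv_inv, mul_inv_cancel_left]
  refine ⟨u * w⁻¹, ?_, h3, ?_⟩
  · rw [map_mul, map_inv, hw1, hu, inv_one, mul_one]
  · intro g hg hg2
    have h4 : g * (u * w⁻¹)⁻¹ = 1 := by
      apply hodd
      · rw [map_mul, map_inv, map_mul, map_inv, hw1, hu, hg, inv_one, mul_one, mul_inv_cancel]
      · rw [mul_mul_mul_comm, ← mul_inv, h3, hg2, mul_inv_cancel]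
    exact mul_inv_eq_one.1 h4

theorem fix_mem (nm : G →* U) (r : U) (nu : G)
    (hodd : ∀ g, nm g = 1 → g * g = 1 → g = 1) (T : G → ℂ)
    (hT : ∀ g g' k : G, T g = T g' → T (g * k) = T (g' * k)) (hnu : T nu = T 1)
    (hu : ∃ u, nm u = r ∧ T u = T 1) {g₀ : G} (h1 : nm g₀ = r) (h2 : g₀ * g₀ = nu) :
    T g₀ = T 1 := by
  let A : Subgroup G :=
    { carrier := {g | T g = T 1}
      mul_mem' := by
        intro a b ha hb
        have h3 := hT a 1 b ha
        rw [one_mul] at h3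
        exact h3.trans hb
      one_mem' := rfl
      inv_mem' := by
        intro a ha
        have h3 := hT a 1 a⁻¹ ha
        rw [mul_inv_cancel, one_mul] at h3
        exact h3.symm }
  obtain ⟨u, hu1, hu2⟩ := hu
  have huA : u ∈ A := hu2
  have hnuA : nu ∈ A := hnu
  have ht1 : nm (u⁻¹ * g₀) = 1 := by rw [map_mul, map_inv, hu1, h1, inv_mul_cancel]
  have ht2 : (u⁻¹ * g₀) * (u⁻¹ * g₀) ∈ A := by
    rw [mul_mul_mul_comm, h2]
    exact A.mul_mem (A.mul_mem (A.inv_mem huA) (A.inv_mem huA)) hnuA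
  have ht3 : (u⁻¹ * g₀) * (u⁻¹ * g₀) ∈ nm.ker := by
    rw [MonoidHom.mem_ker, map_mul, ht1, one_mul]
  have hAH : ∀ g ∈ A ⊓ nm.ker, g * g = 1 → g = 1 := fun g hg h => ker_odd hodd g hg.2 h
  obtain ⟨s, hs, hs2⟩ := sq_surj hAH (s := (u⁻¹ * g₀) * (u⁻¹ * g₀)) ⟨ht2, ht3⟩
  have h4 : s = u⁻¹ * g₀ :=
    sq_inj (ker_odd hodd) hs.2 (MonoidHom.mem_ker.2 ht1) hs2
  have h5 : u⁻¹ * g₀ ∈ A := by rw [← h4]; exact hs.1
  have h6 := A.mul_mem huA h5
  rw [mul_inv_cancel_left] at h6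
  exact h6

end Pool.Agent.SS.KB
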