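import Mathlib

/-!
# Module K/Grp3 (size M, Mathlib only): the counting argument

`W = {g | nm g = r}` (finite), `ι g = nu * g⁻¹` is an involution of `W` (`nm nu = r * r`), `ι g = g ↔ g * g = nu ↔ g = g₀`. Put `f g = ∑ i ∈ S, c i * (X i g + X i (nu * g⁻¹))`, `f (ι g) = f g`. Suppose `f g` is even for all `g ∈ W`, `f g = 2 * f' g` (`f' g := f g / 2`).
`∑_{g ∈ W} f g = ∑ i c i * (∑_W X i g + ∑_W X i (ι g)) = ∑ i c i * 4 * s i` (`hsum`; `∑_W X i (ι g) = ∑_W X i g`: `Finset.sum_bij'`/`sum_nbij'`), divisible by 4.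
`f g₀ = ∑ i c i * 2` (`hfix`, `nu * g₀⁻¹ = g₀`), which is `2` times an odd number. And `∑_{g ∈ W.erase g₀} f' g` is even: in `ZMod 2`, `Finset.sum_involution` with `ι` (`f' g + f' (ι g) = 2 f' g = 0`; `ι g ≠ g` on `W.erase g₀`).
So `∑_W f = f g₀ + 2 * even ≡ 2 mod 4`, contradiction.
-/

set_option autoImplicit false
set_option linter.unusedSectionVars false

namespace Pool.Agent.SS.KB


theorem exists_odd {G U ι : Type} [CommGroup G] [Fintype G] [CommGroup U] (nm : G →* U) (r : U)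
    (nu : G) (hnu : nm nu = r * r) (S : Finset ι) (c : ι → ℕ) (hc : Odd (∑ i ∈ S, c i))
    (X : ι → G → ℕ) {g₀ : G} (h1 : nm g₀ = r) (h2 : g₀ * g₀ = nu)
    (h3 : ∀ g, nm g = r → g * g = nu → g = g₀) (hfix : ∀ i ∈ S, X i g₀ = 1)
    (hsum : ∀ i ∈ S, ∃ s : ℕ, ∀ W : Finset G, (∀ g, g ∈ W ↔ nm g = r) → ∑ g ∈ W, X i g = 2 * s) :
    ∃ g, nm g = r ∧ Odd (∑ i ∈ S, c i * (X i g + X i (nu * g⁻¹))) := by
  classical
  by_contra hcon
  push Not at hcon
  set W : Finset G := Finset.univ.filter fun g => nm g = r with hW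
  have memW : ∀ g, g ∈ W ↔ nm g = r := fun g => by simp [hW]
  have inv1 : ∀ g : G, nu * (nu * g⁻¹)⁻¹ = g := fun g => by
    rw [mul_inv_rev, inv_inv, mul_comm g, ← mul_assoc, mul_inv_cancel, one_mul]
  have invW : ∀ g, g ∈ W → nu * g⁻¹ ∈ W := fun g hg => by
    rw [memW] at hg ⊢
    rw [map_mul, map_inv, hnu, hg, mul_assoc, mul_inv_cancel, mul_one]
  set f : G → ℕ := fun g => ∑ i ∈ S, c i * (X i g + X i (nu * g⁻¹)) with hf
  have finv : ∀ g, f (nu * g⁻¹) = f g := fun g => by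
    simp only [hf]
    refine Finset.sum_congr rfl fun i _ => ?_
    rw [inv1, add_comm (X i (nu * g⁻¹))]
  have heven : ∀ g ∈ W, Even (f g) := fun g hg => by
    have := hcon g ((memW g).1 hg)
    rwa [Nat.not_odd_iff_even] at this
  set f' : G → ℕ := fun g => f g / 2 with hf'
  have hff : ∀ g ∈ W, f g = 2 * f' g := fun g hg => by
    obtain ⟨k, hk⟩ := heven g hg
    simp only [hf']
    omega
  choose! s hs using hsum
  -- the sum of all values
  have e1 : ∑ g ∈ W, f g = 4 * ∑ i ∈ S, c i * s i := by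
    simp only [hf]
    rw [Finset.sum_comm, Finset.mul_sum]
    refine Finset.sum_congr rfl fun i hi => ?_
    rw [← Finset.mul_sum, Finset.sum_add_distrib]
    have h5 : ∑ g ∈ W, X i (nu * g⁻¹) = ∑ g ∈ W, X i g :=
      Finset.sum_nbij' (fun g => nu * g⁻¹) (fun g => nu * g⁻¹) invW invW
        (fun g _ => inv1 g) (fun g _ => inv1 g) (fun g _ => rfl)
    rw [h5, hs i hi W memW]
    ring
  have e2 : ∑ g ∈ W, f g = 2 * ∑ g ∈ W, f' g := by
    rw [Finset.mul_sum]
    exact Finset.sum_congr rfl hff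
  have g0W : g₀ ∈ W := (memW _).2 h1
  have e3 : ∑ g ∈ W, f' g = f' g₀ + ∑ g ∈ W.erase g₀, f' g :=
    (Finset.add_sum_erase W f' g0W).symm
  have e4 : f g₀ = 2 * ∑ i ∈ S, c i := by
    simp only [hf]
    rw [Finset.mul_sum]
    refine Finset.sum_congr rfl fun i hi => ?_
    have h5 : nu * g₀⁻¹ = g₀ := by rw [← h2, mul_assoc, mul_inv_cancel, mul_one]
    rw [h5, hfix i hi]
    ring
  have e5 : f' g₀ = ∑ i ∈ S, c i := by
    have := hff g₀ g0W
    omega
  have e6 : ((∑ g ∈ W.erase g₀, f' g : ℕ) : ZMod 2) = 0 := by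
    rw [Nat.cast_sum]
    refine Finset.sum_involution (fun g _ => nu * g⁻¹) ?_ ?_ ?_ ?_
    · intro g hg
      have h5 : f' (nu * g⁻¹) = f' g := by
        simp only [hf', finv]
      rw [h5]
      exact CharTwo.add_self_eq_zero _
    · intro g hg _ h6
      rw [Finset.mem_erase] at hg
      apply hg.1
      apply h3 g ((memW g).1 hg.2)
      nth_rewrite 1 [← h6]
      rw [mul_assoc, inv_mul_cancel, mul_one]
    · intro g hg
      rw [Finset.mem_erase] at hg ⊢
      refine ⟨?_, invW g hg.2⟩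
      intro h6
      apply hg.1
      rw [← inv1 g, h6, ← h2, mul_assoc, mul_inv_cancel, mul_one]
    · intro g hg
      exact inv1 g
  rw [ZMod.natCast_eq_zero_iff_even] at e6
  obtain ⟨k, hk⟩ := e6
  obtain ⟨l, hl⟩ := hc
  have e7 : ∑ g ∈ W, f' g = 2 * ∑ i ∈ S, c i * s i := by omega
  omega

end Pool.Agent.SS.KB
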