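import Mathlib
import Pool.Agent.Work.MP_a5099b_nt.K.KDefs
import Pool.Agent.Work.MP_a5099b_nt.I.CCls
import Pool.Agent.Work.MP_a5099b_nt.I.CConj

/-!
# Module K/Nm (size S-M): the norm of a class

For `Sm N I` the number `absNorm I` is prime to `N`, so it is a unit of `ZMod N` (`ZMod.unitOfCoprime`). If `Rel N I J`: `span {α} * I = span {β} * J`, so
`absNorm (span {α}) * absNorm I = absNorm (span {β}) * absNorm J` (`map_mul`), `absNorm (span {α}) = norm α` (`PrF.norm_gen`), `norm α ≡ norm β` prime to `N`; cancel: `absNorm I ≡ absNorm J mod N`.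
Put `nm g :=` the unit of some `I` with `Sm N I`, `cl I = g` (`hc.surj`; choose a function `G → Ideal`); `nm (cl I)` is the unit of `I` (`hc.eq_iff`). Multiplicative: `hc.mul`, `PrF.Sm_mul`, `map_mul`; `nm 1 = 1`:
`PrF.cls_top`, `PrF.Sm_top`, `Ideal.absNorm_top` (or `MonoidHom.mk'`, only multiplicativity is needed for a group).
-/

set_option autoImplicit false
set_option linter.unusedSectionVars false

namespace Pool.Agent.SS.KB

open NumberField
open Pool.Agent.Work.CM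
open Pool.Agent.Work.MP_a5099b_nt
open Pool.Agent.Work.MP_a5099b_nt.PrF (Quad U2 Sm Rel Cls)
open Pool.Agent.SS.HB
open scoped Pointwise

variable {K : Type} [Field K] [NumberField K] {q : ℕ} {δ : 𝓞 K}

private theorem rel_norm (h : Quad K q δ) {N : ℕ} {I J : Ideal (𝓞 K)} (hr : Rel N I J) :
    (Ideal.absNorm I : ZMod N) = (Ideal.absNorm J : ZMod N) := by
  obtain ⟨α, β, -, -, hcop, hmod, he⟩ := hr
  have h1 := congrArg Ideal.absNorm he
  rw [map_mul, map_mul] at h1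
  have h2 := congrArg (Nat.cast : ℕ → ZMod N) h1
  rw [Nat.cast_mul, Nat.cast_mul] at h2
  have e : ∀ x : 𝓞 K, ((Ideal.absNorm (Ideal.span {x}) : ℕ) : ZMod N) =
      ((Algebra.norm ℤ x : ℤ) : ZMod N) := fun x => by
    rw [← PrF.norm_gen h x, Int.cast_natCast]
  have h3 : ((Algebra.norm ℤ α : ℤ) : ZMod N) = ((Algebra.norm ℤ β : ℤ) : ZMod N) :=
    (ZMod.intCast_eq_intCast_iff _ _ _).2 hmod
  have h4 : IsUnit ((Algebra.norm ℤ α : ℤ) : ZMod N) :=
    (ZMod.coe_int_isUnit_iff_isCoprime _ _).2 hcop.symm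
  rw [e, e, ← h3] at h2
  exact h4.mul_left_cancel h2

theorem exists_nm (h : Quad K q δ) {N : ℕ} (h0 : N ≠ 0) {G : Type} [CommGroup G]
    {cl : Ideal (𝓞 K) → G} (hc : Cls N G cl) :
    ∃ nm : G →* (ZMod N)ˣ, ∀ I : Ideal (𝓞 K), Sm N I →
      ((nm (cl I) : (ZMod N)ˣ) : ZMod N) = (Ideal.absNorm I : ZMod N) := by
  choose f hf hcl using hc.surj
  have key : ∀ I J : Ideal (𝓞 K), Sm N I → Sm N J → cl I = cl J →
      (Ideal.absNorm I : ZMod N) = (Ideal.absNorm J : ZMod N) := fun I J hI hJ hIJ =>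
    rel_norm h ((hc.eq_iff I J hI hJ).1 hIJ)
  refine ⟨MonoidHom.mk' (fun g => ZMod.unitOfCoprime (Ideal.absNorm (f g)) (hf g).cop) ?_, ?_⟩
  · intro g g'
    apply Units.ext
    rw [Units.val_mul, ZMod.coe_unitOfCoprime, ZMod.coe_unitOfCoprime, ZMod.coe_unitOfCoprime,
      ← Nat.cast_mul, ← map_mul]
    refine key _ _ (hf _) (PrF.Sm_mul.2 ⟨hf g, hf g'⟩) ?_
    rw [hc.mul _ _ (hf g) (hf g'), hcl, hcl, hcl]
  · intro I hI
    rw [MonoidHom.mk'_apply, ZMod.coe_unitOfCoprime]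
    exact key _ _ (hf _) hI (hcl _)

end Pool.Agent.SS.KB
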