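import Mathlib
import Pool.Agent.Work.MP_a5099b_nt.K.KDefs
import Pool.Agent.Work.MP_a5099b_nt.I.CCls
import Pool.Agent.Work.MP_a5099b_nt.I.CConj
import Pool.Agent.Work.MP_a5099b_nt.I.DOdd

/-!
# Module K/Odd1 (size S): classes of order 2 and norm 1 are trivial

`cl (I * I) = 1` (`hc.mul`), `Sm N (I * I)` (`PrF.Sm_mul`), so `I * I = span {γ}` with `U2 γ` (`PrF.cls_one_iff`). `absNorm I` is odd (`2 ∣ N`). `PrF.sqrt_principal`: `I = span {γ'}`, `U2 γ'`; `norm γ' = absNorm I ≡ 1 mod N`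
(`PrF.norm_gen`, `hn`, `ZMod.intCast_eq_intCast_iff` or `ZMod.natCast_eq_natCast_iff`). `PrF.cls_one_iff` again.
-/

set_option autoImplicit false
set_option linter.unusedSectionVars false

namespace Pool.Agent.SS.KB

open NumberField
open Pool.Agent.Work.CM
open Pool.Agent.Work.MP_a5099b_nt
open Pool.Agent.Work.MP_a5099b_nt.PrF (Quad U2 Sm Rel Cls)
open Pool.Agent.SS.HB
open scoped Pointwise

variable {K : Type} [Field K] [NumberField K] {q : ℕ} {δ : 𝓞 K}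

theorem no_two (h : Quad K q δ) {N : ℕ} (hN : 2 ∣ N) {G : Type} [CommGroup G]
    {cl : Ideal (𝓞 K) → G} (hc : Cls N G cl) {I : Ideal (𝓞 K)} (hI : Sm N I)
    (hn : (Ideal.absNorm I : ZMod N) = 1) (h2 : cl I * cl I = 1) : cl I = 1 := by
  rw [← hc.mul I I hI hI] at h2
  obtain ⟨γ, h3, h4, _⟩ := (PrF.cls_one_iff h hc (I * I) (PrF.Sm_mul.2 ⟨hI, hI⟩)).1 h2
  have hodd : Odd (Ideal.absNorm I) := by
    rw [← Nat.not_even_iff_odd]
    intro hev
    have h5 := Nat.Coprime.coprime_dvd_right hN hI.2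
    have h6 : ¬ 2 ∣ Ideal.absNorm I := by
      rw [← Nat.Prime.coprime_iff_not_dvd Nat.prime_two]
      exact h5.symm
    exact h6 hev.two_dvd
  obtain ⟨γ', h5, h6⟩ := PrF.sqrt_principal h I hodd γ h4 h3
  rw [PrF.cls_one_iff h hc I hI]
  refine ⟨γ', h6, h5, ?_⟩
  rw [← PrF.norm_gen h γ', ← h6]
  have h7 : ((Ideal.absNorm I : ℕ) : ZMod N) = ((1 : ℕ) : ZMod N) := by
    rw [hn, Nat.cast_one]
  rw [ZMod.natCast_eq_natCast_iff] at h7
  have h8 := (Int.natCast_modEq_iff).2 h7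
  simpa using h8

end Pool.Agent.SS.KB
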