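import Mathlib
import Pool.Agent.Work.MP_a5099b_nt.K.KDefs
import Pool.Agent.Work.MP_a5099b_nt.K.LMul
import Pool.Agent.Work.MP_a5099b_nt.K.LLat
import Pool.Agent.Work.MP_a5099b_nt.A.Lat
import Pool.Agent.Work.MP_a5099b_nt.I.CCls

/-!
# Module K/TFun (size M): the function `T (cl I) = j(L_I)`

Ideals with `Sm N I` have odd norm (`2 ∣ N`), so `exists_u2`, `LI_mul` apply to them; they are `≠ ⊥` (`Sm.ne`), so `LI_lat` applies.
(1) If `Rel N I J` (with `Sm N I`, `Sm N J`) then `jL (LI L I) = jL (LI L J)`: `span {α} * I = span {β} * J`, `α, β` in `U2`. `LI_mul` (for `span {α}`, `I`: `α ∈ span {α}`) and `LI_span`, `LI_smul` (`phi_ne_zero`, `u2_ne_zero`):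
`LI L (span {α} * I) = LI ((φ α)⁻¹ • L) I = (φ α)⁻¹ • LI L I`, the same for `β, J`. `jL_smul` (A/Lat), `LI_lat`.
(2) `T g := jL (LI φ δ L I)` for some `I` with `Sm N I`, `cl I = g` (`hc.surj`); `T (cl I) = jL (LI L I)` by (1) and `hc.eq_iff`. `T 1 = jL L`: `cls_top`, `Sm_top` (`PrF.Sm_top`), `LI_top`.
(3) If `T g = T g'`, `g = cl I`, `g' = cl I'`, `k = cl J`: `LI L I' = m • LI L I` with `m ≠ 0` (`exists_smul_of_jL`, `LI_lat`), so
`LI L (I' * J) = LI (LI L I') J = m • LI (LI L I) J = m • LI L (I * J)` (`LI_mul`, `LI_smul`); `hc.mul`, `PrF.Sm_mul`, `jL_smul`.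
-/

set_option autoImplicit false
set_option linter.unusedSectionVars false

namespace Pool.Agent.SS.KB

open NumberField
open Pool.Agent.Work.CM
open Pool.Agent.Work.MP_a5099b_nt
open Pool.Agent.Work.MP_a5099b_nt.PrF (Quad U2 Sm Rel Cls)
open Pool.Agent.SS.HB
open scoped Pointwise

variable {K : Type} [Field K] [NumberField K] {q : ℕ} {δ : 𝓞 K}

theorem exists_T (h : Quad K q δ) {N : ℕ} (hN : 2 ∣ N) {G : Type} [CommGroup G]
    {cl : Ideal (𝓞 K) → G} (hc : Cls N G cl) {φ : 𝓞 K →+* ℂ} (hφ : φ δ = sq q) {L : Submodule ℤ ℂ}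
    (hL : IsLat L) (hs : HasSq q L) :
    ∃ T : G → ℂ, (∀ I : Ideal (𝓞 K), Sm N I → T (cl I) = jL (LI φ δ L I)) ∧ T 1 = jL L ∧
      ∀ g g' k : G, T g = T g' → T (g * k) = T (g' * k) := by
  classical
  have hex : ∀ I : Ideal (𝓞 K), Sm N I → ∃ u ∈ I, U2 u := by
    intro I hI
    refine exists_u2 I ?_
    rw [← Nat.coprime_two_right]
    exact Nat.Coprime.coprime_dvd_right hN hI.cop
  have hsp : ∀ (γ : 𝓞 K) (I : Ideal (𝓞 K)), U2 γ → Sm N I →
      LI φ δ L (Ideal.span {γ} * I) = (φ γ)⁻¹ • LI φ δ L I := by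
    intro γ I hγ hI
    obtain ⟨w, hw, hw2⟩ := hex I hI
    rw [← LI_mul h (Ideal.mem_span_singleton_self γ) hγ hw hw2, LI_span h hφ hs hγ,
      LI_smul (inv_ne_zero (phi_ne_zero h hφ (u2_ne_zero h hγ)))]
  have hrel : ∀ I J : Ideal (𝓞 K), Sm N I → Sm N J → Rel N I J →
      jL (LI φ δ L I) = jL (LI φ δ L J) := by
    rintro I J hI hJ ⟨α, β, hα, hβ, -, -, he⟩
    have h1 := hsp α I hα hI
    rw [he, hsp β J hβ hJ] at h1
    have h2 := congrArg jL h1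
    rw [jL_smul (LI_lat h hφ hL hs hJ.ne) (inv_ne_zero (phi_ne_zero h hφ (u2_ne_zero h hβ))),
      jL_smul (LI_lat h hφ hL hs hI.ne) (inv_ne_zero (phi_ne_zero h hφ (u2_ne_zero h hα)))] at h2
    exact h2.symm
  refine ⟨fun g => jL (LI φ δ L (hc.surj g).choose), ?_, ?_, ?_⟩
  · intro I hI
    obtain ⟨h1, h2⟩ := (hc.surj (cl I)).choose_spec
    exact hrel _ _ h1 hI ((hc.eq_iff _ _ h1 hI).1 h2)
  · obtain ⟨h1, h2⟩ := (hc.surj 1).choose_spec
    have h3 := hrel _ _ h1 PrF.Sm_top ((hc.eq_iff _ _ h1 PrF.Sm_top).1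
      (h2.trans (PrF.cls_top hc).symm))
    rw [LI_top h hφ hs] at h3
    exact h3
  · intro g g' k hg
    obtain ⟨h1, h2⟩ := (hc.surj g).choose_spec
    obtain ⟨h1', h2'⟩ := (hc.surj g').choose_spec
    obtain ⟨hk1, hk2⟩ := (hc.surj k).choose_spec
    set I := (hc.surj g).choose
    set I' := (hc.surj g').choose
    set J := (hc.surj k).choose
    obtain ⟨h3, h4⟩ := (hc.surj (g * k)).choose_spec
    obtain ⟨h3', h4'⟩ := (hc.surj (g' * k)).choose_spec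
    have hIJ : Sm N (I * J) := PrF.Sm_mul.2 ⟨h1, hk1⟩
    have hIJ' : Sm N (I' * J) := PrF.Sm_mul.2 ⟨h1', hk1⟩
    have e1 : jL (LI φ δ L (hc.surj (g * k)).choose) = jL (LI φ δ L (I * J)) := by
      refine hrel _ _ h3 hIJ ((hc.eq_iff _ _ h3 hIJ).1 ?_)
      rw [h4, hc.mul _ _ h1 hk1, h2, hk2]
    have e1' : jL (LI φ δ L (hc.surj (g' * k)).choose) = jL (LI φ δ L (I' * J)) := by
      refine hrel _ _ h3' hIJ' ((hc.eq_iff _ _ h3' hIJ').1 ?_)
      rw [h4', hc.mul _ _ h1' hk1, h2', hk2]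
    show jL (LI φ δ L (hc.surj (g * k)).choose) = jL (LI φ δ L (hc.surj (g' * k)).choose)
    rw [e1, e1']
    obtain ⟨m, hm, hm'⟩ := exists_smul_of_jL (LI_lat h hφ hL hs h1.ne) (LI_lat h hφ hL hs h1'.ne) hg
    obtain ⟨u, hu, hu2⟩ := hex I h1
    obtain ⟨u', hu', hu2'⟩ := hex I' h1'
    obtain ⟨w, hw, hw2⟩ := hex J hk1
    rw [← LI_mul h hu' hu2' hw hw2, hm', LI_smul hm, LI_mul h hu hu2 hw hw2,
      jL_smul (LI_lat h hφ hL hs hIJ.ne) hm]

end Pool.Agent.SS.KB
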