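import Mathlib
import Pool.Agent.Work.MP_a5099b_nt.H.Local
import Pool.Agent.Work.MP_a5099b_nt.H.Jac
import Pool.Agent.Work.MP_a5099b_nt.SpecI
import Pool.Agent.Work.MP_a5099b_nt.K.Jac2

/-!
# Module K/Rep (size M): local solvability modulo `8 m q`

(1) modulo `8 m`: `form_rep` (H/Local) gives `x₁, y₁`.
(2) modulo `q`: `primes_form` (SpecI) with `N = 1` (`x = y = 0`, everything is coprime to 1) and `B = a.toNat + q + 2` gives a prime `l > B`, `l = a u^2 + b u v + c v^2`. `jac_one` (H/Jac): `jacobiSym (-q) l = 1`, so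
`legendreSym q l = 1` (`jac_eq`), i.e. `l = s * s` in `ZMod q` with `s ≠ 0` (`legendreSym.eq_one_iff`). So for `(x₂, y₂) = (t u, t v)`, `t * s = 1` in `ZMod q`, the form has the value `t^2 l = 1 = r` in `ZMod q`.
(3) Chinese remainder theorem: `8 m` and `q` are coprime (`q` is an odd prime, `¬ q ∣ m`): choose `x ≡ x₁ mod 8 m`, `x ≡ x₂ mod q`, the same for `y` (`Int` version: from `IsCoprime (8 m) q`: `1 = α (8 m) + β q`, `x = x₂ α 8 m + x₁ β q`).
Then the value is `≡ r` modulo `8 m` and modulo `q`, so modulo the product (`IsCoprime.mul_dvd`).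
-/

set_option autoImplicit false
set_option linter.unusedSectionVars false

namespace Pool.Agent.SS.KB

open NumberField
open Pool.Agent.Work.CM
open Pool.Agent.Work.MP_a5099b_nt
open Pool.Agent.Work.MP_a5099b_nt.PrF (Quad U2 Sm Rel Cls)
open Pool.Agent.SS.HB
open scoped Pointwise

private theorem rep_crt {a b c r : ℤ} {M N : ℕ} (hc : Nat.Coprime M N)
    (h1 : ∃ x y : ℤ, a * x ^ 2 + b * x * y + c * y ^ 2 ≡ r [ZMOD (M : ℕ)])
    (h2 : ∃ x y : ℤ, a * x ^ 2 + b * x * y + c * y ^ 2 ≡ r [ZMOD (N : ℕ)]) :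
    ∃ x y : ℤ, a * x ^ 2 + b * x * y + c * y ^ 2 ≡ r [ZMOD (M * N : ℕ)] := by
  obtain ⟨x1, y1, h1⟩ := h1
  obtain ⟨x2, y2, h2⟩ := h2
  obtain ⟨u, v, huv⟩ := Nat.isCoprime_iff_coprime.mpr hc
  have hM : ∀ s t : ℤ, t * (u * M) + s * (v * N) ≡ s [ZMOD M] := fun s t => by
    rw [Int.modEq_iff_dvd]
    refine ⟨s * u - t * u, ?_⟩
    linear_combination (-s) * huv
  have hN : ∀ s t : ℤ, t * (u * M) + s * (v * N) ≡ t [ZMOD N] := fun s t => by
    rw [Int.modEq_iff_dvd]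
    refine ⟨t * v - s * v, ?_⟩
    linear_combination (-t) * huv
  refine ⟨x2 * (u * M) + x1 * (v * N), y2 * (u * M) + y1 * (v * N), ?_⟩
  have e : ((M * N : ℕ) : ℤ) = (M : ℤ) * N := by push_cast; ring
  rw [e, ← Int.modEq_and_modEq_iff_modEq_mul (by simpa using hc)]
  constructor
  · refine Int.ModEq.trans ?_ h1
    exact (((((hM _ _).pow 2).mul_left a).add (((hM _ _).mul_left b).mul (hM _ _))).add
      (((hM _ _).pow 2).mul_left c))
  · refine Int.ModEq.trans ?_ h2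
    exact (((((hN _ _).pow 2).mul_left a).add (((hN _ _).mul_left b).mul (hN _ _))).add
      (((hN _ _).pow 2).mul_left c))

private theorem rep_q {q : ℕ} [Fact q.Prime] (h7 : 7 ≤ q) (hq4 : q % 4 = 3) {a b c : ℤ}
    (ha : 0 < a) (hd : b ^ 2 - 4 * a * c = -4 * q) (hg : Int.gcd (Int.gcd a b) c = 1) {r : ℤ}
    (hrq : r ≡ 1 [ZMOD q]) :
    ∃ x y : ℤ, a * x ^ 2 + b * x * y + c * y ^ 2 ≡ r [ZMOD (q : ℕ)] := by
  have hq : q.Prime := Fact.out
  obtain ⟨l, hl, hB, -, u, v, huv⟩ := primes_form hq hq4 h7 a b c ha hd hg (N := 1) one_pos 0 0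
    (by rw [Nat.cast_one]; exact isCoprime_one_right) (a.toNat + q + 2)
  have hal : a < l := by
    have h1 : (a.toNat : ℤ) = a := Int.toNat_of_nonneg ha.le
    omega
  have hql : q < l := by omega
  have hl2 : l ≠ 2 := by omega
  have hj := jac_one hq hl ha hd huv hal hql hl2
  rw [jac_eq hq4 hl hl2 (by omega)] at hj
  have hl0 : ((l : ℤ) : ZMod q) ≠ 0 := by
    intro h0
    rw [Int.cast_natCast, ZMod.natCast_eq_zero_iff] at h0
    rcases (Nat.dvd_prime hl).1 h0 with h1 | h1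
    · exact hq.one_lt.ne' h1
    · omega
  obtain ⟨s, hs⟩ := (legendreSym.eq_one_iff q hl0).1 hj
  have hs0 : s ≠ 0 := by
    rintro rfl
    apply hl0
    rw [hs, mul_zero]
  obtain ⟨t, ht⟩ := ZMod.intCast_surjective s⁻¹
  have hts : (t : ZMod q) * s = 1 := by
    rw [ht]
    exact inv_mul_cancel₀ hs0
  refine ⟨t * u, t * v, ?_⟩
  have hr : (r : ZMod q) = 1 := by
    have := (ZMod.intCast_eq_intCast_iff r 1 q).2 hrq
    simpa using this
  rw [← ZMod.intCast_eq_intCast_iff]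
  have e : a * (t * u) ^ 2 + b * (t * u) * (t * v) + c * (t * v) ^ 2 = t ^ 2 * (l : ℤ) := by
    rw [huv]
    ring
  rw [e, hr]
  push_cast
  rw [Int.cast_natCast] at hs
  rw [hs]
  linear_combination ((t : ZMod q) * s + 1) * hts

theorem form_rep_q {q : ℕ} [Fact q.Prime] (h7 : 7 ≤ q) (hq4 : q % 4 = 3) {a b c : ℤ} (ha : 0 < a)
    (hd : b ^ 2 - 4 * a * c = -4 * q) (hg : Int.gcd (Int.gcd a b) c = 1) {m : ℕ} (hm : Odd m)
    (hm2 : Squarefree m) (hqm : ¬ q ∣ m) {r : ℤ} (hr : Odd r) (hrq : r ≡ 1 [ZMOD q]) :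
    ∃ x y : ℤ, a * x ^ 2 + b * x * y + c * y ^ 2 ≡ r [ZMOD (8 * m * q : ℕ)] := by
  have hq : q.Prime := Fact.out
  have hco : Nat.Coprime (8 * m) q := by
    rw [Nat.coprime_comm, Nat.Prime.coprime_iff_not_dvd hq]
    intro h
    rcases (Nat.Prime.dvd_mul hq).1 h with h1 | h1
    · have h2 : q ∣ 2 ^ 3 := by simpa using h1
      have h3 := hq.dvd_of_dvd_pow h2
      have h4 := Nat.le_of_dvd (by norm_num) h3
      omega
    · exact hqm h1
  exact rep_crt hco (form_rep hq hq4 hd hg hm hm2 hqm hr) (rep_q h7 hq4 ha hd hg hrq)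

end Pool.Agent.SS.KB
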