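import Mathlib
import Pool.Agent.Work.MP_a5099b_nt.K.KDefs
import Pool.Agent.Work.MP_a5099b_nt.K.Rep
import Pool.Agent.Work.MP_a5099b_nt.K.PConj
import Pool.Agent.Work.MP_a5099b_nt.A.Lat

/-!
# Module K/U1 (size S-M): an ideal of norm `r mod N` with `j(L_I) = j(L)`

`form_rep_q` for the form `x^2 + q y^2` (`a = 1, b = 0, c = q`): `x^2 + q y^2 ≡ r mod N`, `N = 8 m q`. `γ = x + y δ` has norm `x^2 + q y^2` (`PrF.norm_int`), which is odd (as `r` is odd and `N` even), so `x + y` is odd (`q` odd), `U2 γ`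
(`PrF.U2_iff`). `I = span {γ}`, `absNorm I = norm γ` (`PrF.norm_gen`) prime to `N` (as `r` is), `I ≠ ⊥`. `LI L I = (φ γ)⁻¹ • L` (`LI_span`), `jL_smul`.
-/

set_option autoImplicit false
set_option linter.unusedSectionVars false

namespace Pool.Agent.SS.KB

open NumberField
open Pool.Agent.Work.CM
open Pool.Agent.Work.MP_a5099b_nt
open Pool.Agent.Work.MP_a5099b_nt.PrF (Quad U2 Sm Rel Cls)
open Pool.Agent.SS.HB
open scoped Pointwise

variable {K : Type} [Field K] [NumberField K] {q : ℕ} {δ : 𝓞 K}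

theorem exists_u (h : Quad K q δ) [Fact q.Prime] (h7 : 7 ≤ q) (hq4 : q % 4 = 3)
    {φ : 𝓞 K →+* ℂ} (hφ : φ δ = sq q) {L : Submodule ℤ ℂ} (hL : IsLat L) (hs : HasSq q L) {m : ℕ}
    (hm : Odd m) (hm2 : Squarefree m) (hqm : ¬ q ∣ m) {r : ℕ} (hr : r.Coprime (8 * m * q))
    (hrq : r ≡ 1 [MOD q]) :
    ∃ I : Ideal (𝓞 K), Sm (8 * m * q) I ∧ Ideal.absNorm I ≡ r [MOD 8 * m * q] ∧
      jL (LI φ δ L I) = jL L := by
  have h2N : 2 ∣ 8 * m * q := ⟨4 * m * q, by ring⟩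
  have hrodd : Odd r := Nat.coprime_two_right.1 (Nat.Coprime.coprime_dvd_right h2N hr)
  have hrodd' : Odd (r : ℤ) := by exact_mod_cast hrodd
  have hrq' : (r : ℤ) ≡ 1 [ZMOD q] := by
    have h1 := Int.natCast_modEq_iff.2 hrq
    simpa using h1
  obtain ⟨x, y, hxy⟩ := form_rep_q (q := q) h7 hq4 (a := 1) (b := 0) (c := (q : ℤ)) one_pos
    (by ring) (by simp) hm hm2 hqm hrodd' hrq'
  have hn : Algebra.norm ℤ ((x : 𝓞 K) + (y : 𝓞 K) * δ) = x ^ 2 + q * y ^ 2 := PrF.norm_int h x y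
  have hmod : Algebra.norm ℤ ((x : 𝓞 K) + (y : 𝓞 K) * δ) ≡ r [ZMOD (8 * m * q : ℕ)] := by
    rw [hn]
    have e : (1 : ℤ) * x ^ 2 + 0 * x * y + (q : ℤ) * y ^ 2 = x ^ 2 + q * y ^ 2 := by ring
    rw [e] at hxy
    exact hxy
  have hpar : Algebra.norm ℤ ((x : 𝓞 K) + (y : 𝓞 K) * δ) ≡ r [ZMOD 2] :=
    hmod.of_dvd (by exact_mod_cast h2N)
  have hqodd : Odd (q : ℤ) := by
    have h1 : Odd q := Nat.odd_iff.2 (by omega)
    exact_mod_cast h1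
  have hodd : Odd (x + y) := by
    rw [hn] at hpar
    have h1 : Odd (x ^ 2 + (q : ℤ) * y ^ 2) := by
      rw [Int.odd_iff] at hrodd' ⊢
      rw [← hrodd']
      exact hpar
    rw [Int.odd_add, Int.odd_pow' two_ne_zero, Int.even_mul, Int.even_pow' two_ne_zero] at h1
    rw [Int.odd_add, h1]
    have h3 : ¬ Even (q : ℤ) := Int.not_even_iff_odd.2 hqodd
    tauto
  have hU : U2 ((x : 𝓞 K) + (y : 𝓞 K) * δ) := (PrF.U2_iff h _).2 ⟨x, y, rfl, hodd⟩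
  have hmodI : Ideal.absNorm (Ideal.span {(x : 𝓞 K) + (y : 𝓞 K) * δ}) ≡ r [MOD 8 * m * q] := by
    rw [← Int.natCast_modEq_iff, PrF.norm_gen h]
    exact hmod
  refine ⟨Ideal.span {(x : 𝓞 K) + (y : 𝓞 K) * δ}, ⟨?_, ?_⟩, hmodI, ?_⟩
  · rw [Ne, Ideal.span_singleton_eq_bot]
    exact u2_ne_zero h hU
  · unfold Nat.Coprime at *
    rw [hmodI.gcd_eq]
    exact hr
  · rw [LI_span h hφ hs hU, jL_smul hL (inv_ne_zero (phi_ne_zero h hφ (u2_ne_zero h hU)))]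

end Pool.Agent.SS.KB
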