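import Mathlib
import Pool.Agent.Work.MP_a5099b_nt.K.KDefs
import Pool.Agent.Work.MP_a5099b_nt.K.Rep
import Pool.Agent.Work.MP_a5099b_nt.K.PTwo
import Pool.Agent.Work.MP_a5099b_nt.K.Jac2
import Pool.Agent.Work.MP_a5099b_nt.A.Lat
import Pool.Agent.Work.MP_a5099b_nt.B.SupF
import Pool.Agent.Work.MP_a5099b_nt.H.Pair
import Pool.Agent.Work.MP_a5099b_nt.H.PSup
import Pool.Agent.Work.MP_a5099b_nt.I.DPr
import Pool.Agent.Work.MP_a5099b_nt.SpecI

/-!
# Module K/U2 (size M): an ideal of norm `r mod N` with `j(L_I) = j(M)`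

`P.form hq4` gives the form `a, b, c`; `form_rep_q`: `x₀, y₀` with value `≡ r mod N`, `N = 8 m q`, hence prime to `N`. `primes_form` (SpecI; `B = a.toNat + q + 2`): a prime `l > B`, `l ≡ r mod N`, `l = a u^2 + b u v + c v^2`. So there is `x ≠ 0` with
`Sup l (x • L) M`, i.e. `Sup l L (x⁻¹ • M)` (`Sup_smul` with `m = x⁻¹`; `x⁻¹ • x • L = L`), `HasSq q (x⁻¹ • M)` (`IsMul.smul`), `jL (x⁻¹ • M) = jL M` (`jL_smul`).
`jac_one` (H/Jac), `jac_eq`: `legendreSym q l = 1`; `PrF.split`: a prime ideal `Q` of norm `l`. `stable_eq`: `x⁻¹ • M = LI L Q` or `= LI L Q'`, `Q'` the conjugate; both have norm `l` (`PrF.absNorm_conj`), which is prime to `N` (`l ≡ r`), not zero.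
-/

set_option autoImplicit false
set_option linter.unusedSectionVars false

namespace Pool.Agent.SS.KB

open NumberField
open Pool.Agent.Work.CM
open Pool.Agent.Work.MP_a5099b_nt
open Pool.Agent.Work.MP_a5099b_nt.PrF (Quad U2 Sm Rel Cls)
open Pool.Agent.SS.HB
open scoped Pointwise

variable {K : Type} [Field K] [NumberField K] {q : ℕ} {δ : 𝓞 K}

theorem exists_u' (h : Quad K q δ) [Fact q.Prime] (h7 : 7 ≤ q) (hq4 : q % 4 = 3)
    {φ : 𝓞 K →+* ℂ} (hφ : φ δ = sq q) {k : Type} [Field k] [CharP k q]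
    {red : integralClosure ℤ ℂ →+* k} {y : ZMod q} {L M : Submodule ℤ ℂ} (P : PairAt q red y L M)
    {m : ℕ} (hm : Odd m) (hm2 : Squarefree m) (hqm : ¬ q ∣ m) {r : ℕ}
    (hr : r.Coprime (8 * m * q)) (hrq : r ≡ 1 [MOD q]) :
    ∃ I : Ideal (𝓞 K), Sm (8 * m * q) I ∧ Ideal.absNorm I ≡ r [MOD 8 * m * q] ∧
      jL (LI φ δ L I) = jL M := by
  have hq : q.Prime := Fact.out
  obtain ⟨a, b, c, ha, hd, hg, hf⟩ := P.form hq4
  have h2N : 2 ∣ 8 * m * q := ⟨4 * m * q, by ring⟩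
  have hrodd : Odd r := Nat.coprime_two_right.1 (Nat.Coprime.coprime_dvd_right h2N hr)
  have hrodd' : Odd (r : ℤ) := by exact_mod_cast hrodd
  have hrq' : (r : ℤ) ≡ 1 [ZMOD q] := by
    have h1 := Int.natCast_modEq_iff.2 hrq
    simpa using h1
  obtain ⟨x0, y0, hxy⟩ := form_rep_q h7 hq4 ha hd hg hm hm2 hqm hrodd' hrq'
  have hcop : IsCoprime (a * x0 ^ 2 + b * x0 * y0 + c * y0 ^ 2) ((8 * m * q : ℕ) : ℤ) := by
    have hrc : IsCoprime (r : ℤ) ((8 * m * q : ℕ) : ℤ) := Nat.isCoprime_iff_coprime.2 hr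
    obtain ⟨t, ht⟩ := hxy.dvd
    have e : (r : ℤ) = (a * x0 ^ 2 + b * x0 * y0 + c * y0 ^ 2) + ((8 * m * q : ℕ) : ℤ) * t := by
      linarith
    rw [e] at hrc
    exact hrc.of_add_mul_left_left
  have hNpos : 0 < 8 * m * q := by
    have h1 := hm.pos
    have h2 := hq.pos
    positivity
  obtain ⟨l, hl, hBl, hlmod, u, v, hl4⟩ := primes_form hq hq4 h7 a b c ha hd hg hNpos x0 y0 hcop
    (a.toNat + q + 2)
  have hlr : (l : ℤ) ≡ r [ZMOD (8 * m * q : ℕ)] := hlmod.trans hxy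
  have hlrn : l ≡ r [MOD 8 * m * q] := Int.natCast_modEq_iff.1 hlr
  have hal : a < l := by
    have := Int.self_le_toNat a
    omega
  have hql : q < l := by omega
  have hl2 : l ≠ 2 := by omega
  have hlq : l ≠ q := by omega
  obtain ⟨x, hx0, hx⟩ := hf u v l hl.pos hl4
  have hsup : Sup l L (x⁻¹ • M) := by
    have h1 := Sup_smul hx (inv_ne_zero hx0)
    rwa [smul_smul, inv_mul_cancel₀ hx0, one_smul] at h1
  have hsq : HasSq q (x⁻¹ • M) := IsMul.smul P.sqM (inv_ne_zero hx0)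
  have hj := jac_one hq hl ha hd hl4 hal hql hl2
  rw [jac_eq hq4 hl hl2 hlq] at hj
  obtain ⟨Q, Q', -, -, -, hQ, -⟩ := PrF.split h l hl hl2 hlq hj
  have hcase := stable_eq h hφ P.latL P.sqL hl hl2 hlq hQ hsup hsq
  have hjM : jL (x⁻¹ • M) = jL M := jL_smul P.latM (inv_ne_zero hx0)
  have hSm : ∀ I : Ideal (𝓞 K), Ideal.absNorm I = l → Sm (8 * m * q) I := by
    intro I hI
    rw [PrF.Sm_iff, hI]
    refine ⟨hl.pos, ?_⟩
    unfold Nat.Coprime at *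
    rw [hlrn.gcd_eq]
    exact hr
  rcases hcase with hc | hc
  · exact ⟨Q, hSm Q hQ, by rw [hQ]; exact hlrn, by rw [← hc, hjM]⟩
  · have hQ' : Ideal.absNorm (Q.map (PrF.conj h : 𝓞 K →+* 𝓞 K)) = l := by
      rw [PrF.absNorm_conj, hQ]
    exact ⟨_, hSm _ hQ', by rw [hQ']; exact hlrn, by rw [← hc, hjM]⟩

end Pool.Agent.SS.KB
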