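import Mathlib
import Pool.Agent.Work.MP_a5099b_nt.K.KDefs
import Pool.Agent.Work.MP_a5099b_nt.K.TFun
import Pool.Agent.Work.MP_a5099b_nt.K.U1
import Pool.Agent.Work.MP_a5099b_nt.K.U2
import Pool.Agent.Work.MP_a5099b_nt.K.Cnt
import Pool.Agent.Work.MP_a5099b_nt.K.PConj
import Pool.Agent.Work.MP_a5099b_nt.H.Pair

/-!
# Module K/One (helper47): everything about one supersingular invariant `y`
-/

set_option autoImplicit false
set_option linter.unusedSectionVars false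

namespace Pool.Agent.SS.KB

open NumberField
open Pool.Agent.Work.CM
open Pool.Agent.Work.MP_a5099b_nt
open Pool.Agent.Work.MP_a5099b_nt.PrF (Quad U2 Sm Rel Cls)
open Pool.Agent.SS.HB
open scoped Pointwise

open Classical in
theorem one {K : Type} [Field K] [NumberField K] {q : ℕ} {δ : 𝓞 K} (h : Quad K q δ)
    [Fact q.Prime] (h7 : 7 ≤ q) (hq4 : q % 4 = 3)
    {φ : 𝓞 K →+* ℂ} (hφ : φ δ = sq q) {k : Type} [Field k] [CharP k q]
    {red : integralClosure ℤ ℂ →+* k} {y : ZMod q} {L M : Submodule ℤ ℂ} (P : PairAt q red y L M)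
    {m : ℕ} (hm : Odd m) (hm2 : Squarefree m) (hqm : ¬ q ∣ m) {r : ℕ}
    (hr : r.Coprime (8 * m * q)) (hrq : r ≡ 1 [MOD q]) {G : Type} [CommGroup G]
    {cl : Ideal (𝓞 K) → G} (hc : Cls (8 * m * q) G cl) (nm : G →* (ZMod (8 * m * q))ˣ)
    (hnm : ∀ I : Ideal (𝓞 K), Sm (8 * m * q) I →
      ((nm (cl I) : (ZMod (8 * m * q))ˣ) : ZMod (8 * m * q)) = (Ideal.absNorm I : ZMod (8 * m * q)))
    {rU : (ZMod (8 * m * q))ˣ} (hrU : (rU : ZMod (8 * m * q)) = (r : ZMod (8 * m * q))) :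
    ∃ (T : G → ℂ) (a a' : ℂ), T 1 = a ∧ (∀ g g' k : G, T g = T g' → T (g * k) = T (g' * k)) ∧
      a ≠ a' ∧ (∃ u, nm u = rU ∧ T u = a) ∧ (∃ u, nm u = rU ∧ T u = a') ∧
      T (cl (Ideal.span {(r : 𝓞 K)})) = a ∧
      ∀ Q : Ideal (𝓞 K), (Ideal.absNorm Q).Prime → Sm (8 * m * q) Q → nm (cl Q) = rU →
        (PhiAt (Ideal.absNorm Q) y).rootMultiplicity y ≡
          (if T (cl Q) = a ∨ T (cl Q) = a' then 1 else 0) +
            (if T (cl (Ideal.span {(r : 𝓞 K)}) * (cl Q)⁻¹) = a ∨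
              T (cl (Ideal.span {(r : 𝓞 K)}) * (cl Q)⁻¹) = a' then 1 else 0) [MOD 2] := by
  have hN : 2 ∣ 8 * m * q := ⟨4 * m * q, by ring⟩
  obtain ⟨T, hT1, hT2, hT3⟩ := exists_T h hN hc hφ P.latL P.sqL
  have hnr : ∀ I : Ideal (𝓞 K), Sm (8 * m * q) I →
      (nm (cl I) = rU ↔ Ideal.absNorm I ≡ r [MOD 8 * m * q]) := by
    intro I hI
    rw [← Units.val_inj, hnm I hI, hrU, ZMod.natCast_eq_natCast_iff]
  refine ⟨T, jL L, jL M, hT2, hT3, P.ne, ?_, ?_, ?_, ?_⟩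
  · obtain ⟨I, h1, h2, h3⟩ := exists_u h h7 hq4 hφ P.latL P.sqL hm hm2 hqm hr hrq
    exact ⟨cl I, (hnr I h1).2 h2, by rw [hT1 I h1, h3]⟩
  · obtain ⟨I, h1, h2, h3⟩ := exists_u' h h7 hq4 hφ P hm hm2 hqm hr hrq
    exact ⟨cl I, (hnr I h1).2 h2, by rw [hT1 I h1, h3]⟩
  · obtain ⟨h1, _, h3⟩ := sm_nat h hN hr
    rw [hT1 _ h1, LI_span h hφ P.sqL h3]
    exact jL_smul P.latL (inv_ne_zero (phi_ne_zero h hφ (u2_ne_zero h h3)))
  · intro Q hQ hS hQr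
    have hl2 : Ideal.absNorm Q ≠ 2 := by
      intro h2
      have h3 := hS.2
      rw [h2] at h3
      exact (Nat.Prime.coprime_iff_not_dvd Nat.prime_two).1 h3 hN
    have hlq : Ideal.absNorm Q ≠ q := by
      intro h2
      have h3 := hS.2
      rw [h2] at h3
      exact (Nat.Prime.coprime_iff_not_dvd h.prime).1 h3 (Dvd.intro_left _ rfl)
    have h1 := P.par hQ hlq
    have h2 := ncard_eq h hφ P.latL P.sqL hQ hl2 hlq rfl (fun z => z = jL L ∨ z = jL M)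
    obtain ⟨h3, h4⟩ := cl_conj h hc hS
    rw [cl_nat h hN hc hS.2 ((hnr Q hS).1 hQr)] at h4
    have h5 : cl (Q.map (PrF.conj h : 𝓞 K →+* 𝓞 K)) =
        cl (Ideal.span {(r : 𝓞 K)}) * (cl Q)⁻¹ := by
      rw [← h4]
      rw [mul_comm (cl Q), mul_inv_cancel_right]
    rw [← hT1 Q hS, ← hT1 _ h3, h5] at h2
    rw [h2] at h1
    convert h1

end Pool.Agent.SS.KB
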