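import Mathlib
import Pool.Agent.Work.MP_a5099b_nt.K.KDefs
import Pool.Agent.Work.MP_a5099b_nt.K.Emb
import Pool.Agent.Work.MP_a5099b_nt.K.Nm
import Pool.Agent.Work.MP_a5099b_nt.K.Odd1
import Pool.Agent.Work.MP_a5099b_nt.K.One
import Pool.Agent.Work.MP_a5099b_nt.K.Grp1
import Pool.Agent.Work.MP_a5099b_nt.K.Grp2
import Pool.Agent.Work.MP_a5099b_nt.K.Grp3
import Pool.Agent.Work.MP_a5099b_nt.K.Jac2
import Pool.Agent.Work.MP_a5099b_nt.I.ECls
import Pool.Agent.Work.MP_a5099b_nt.I.EInst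
import Pool.Agent.Work.MP_a5099b_nt.I.CRel
import Pool.Agent.Work.MP_a5099b_nt.I.DPow

/-!
# Module K/Main (helper47): assembly of block K
-/

set_option autoImplicit false
set_option linter.unusedSectionVars false

namespace Pool.Agent.SS.KB

open NumberField
open Pool.Agent.Work.CM
open Pool.Agent.Work.MP_a5099b_nt
open Pool.Agent.Work.MP_a5099b_nt.PrF (Quad U2 Sm Rel Cls)
open Pool.Agent.SS.HB
open scoped Pointwise

theorem exists_prime_avg_main {q : ℕ} [Fact q.Prime] (h7 : 7 ≤ q) (hq4 : q % 4 = 3)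
    (S : Finset (ZMod q)) (hS : ∀ y ∈ S, SSj q y ∧ y ≠ 0 ∧ y ≠ 1728) (c : ZMod q → ℕ)
    (hc : Odd (∑ y ∈ S, c y)) {m : ℕ} (hm : Odd m) (hm2 : Squarefree m)
    (hqm : ¬ q ∣ m) {r : ℕ} (hr : Nat.Coprime r (8 * m)) (B : ℕ) :
    ∃ l : ℕ, l.Prime ∧ B < l ∧ l ≡ r [MOD 8 * m] ∧ jacobiSym (-q) l = 1 ∧
      Odd (∑ y ∈ S, c y * (PhiAt l y).rootMultiplicity y) := by
  classical
  have hq : q.Prime := Fact.out
  have hm0 : 0 < m := hm.pos
  -- the residue class
  have hcop : (8 * m).Coprime q := by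
    rw [Nat.coprime_comm, hq.coprime_iff_not_dvd]
    intro hd
    rcases (hq.dvd_mul).1 hd with h1 | h1
    · have := Nat.le_of_dvd (by norm_num) h1
      have h8 : q = 7 ∨ q = 8 := by omega
      rcases h8 with rfl | rfl
      · omega
      · omega
    · exact hqm h1
  obtain ⟨r', hr1, hr2⟩ := Nat.chineseRemainder hcop r 1
  have hr' : r'.Coprime (8 * m * q) := by
    apply Nat.Coprime.mul_right
    · rw [Nat.Coprime, hr1.gcd_eq]
      exact hr
    · rw [Nat.Coprime, hr2.gcd_eq]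
      exact Nat.gcd_one_left q
  have hN0 : 8 * m * q ≠ 0 := by
    have := hq.pos
    positivity
  have hN2 : 2 ∣ 8 * m * q := ⟨4 * m * q, by ring⟩
  have hNq : q ∣ 8 * m * q := Dvd.intro_left _ rfl
  -- the field and the classes
  obtain ⟨K, _, _, δ, h⟩ := PrF.exists_quad q hq hq4 h7
  obtain ⟨G, _, _, cl, hcl⟩ := PrF.exists_cls h (8 * m * q) hN2 hN0
  obtain ⟨φ, hφ⟩ := exists_emb h
  obtain ⟨nm, hnm⟩ := exists_nm h hN0 hcl
  obtain ⟨k, _, _, ⟨red⟩⟩ := exists_place hq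
  set rU : (ZMod (8 * m * q))ˣ := ZMod.unitOfCoprime r' hr' with hrU'
  have hrU : (rU : ZMod (8 * m * q)) = (r' : ZMod (8 * m * q)) := ZMod.coe_unitOfCoprime r' hr'
  set nu : G := cl (Ideal.span {(r' : 𝓞 K)}) with hnu'
  have key : ∀ y : ZMod q, ∃ (T : G → ℂ) (a a' : ℂ), y ∈ S → (T 1 = a ∧
      (∀ g g' k : G, T g = T g' → T (g * k) = T (g' * k)) ∧
      a ≠ a' ∧ (∃ u, nm u = rU ∧ T u = a) ∧ (∃ u, nm u = rU ∧ T u = a') ∧
      T nu = a ∧
      ∀ Q : Ideal (𝓞 K), (Ideal.absNorm Q).Prime → Sm (8 * m * q) Q → nm (cl Q) = rU →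
        (PhiAt (Ideal.absNorm Q) y).rootMultiplicity y ≡
          (if T (cl Q) = a ∨ T (cl Q) = a' then 1 else 0) +
            (if T (nu * (cl Q)⁻¹) = a ∨ T (nu * (cl Q)⁻¹) = a' then 1 else 0) [MOD 2]) := by
    intro y
    by_cases hy : y ∈ S
    · obtain ⟨hy1, hy2, hy3⟩ := hS y hy
      obtain ⟨L, M, P⟩ := exists_pairAt (by omega) red y hy1 hy2 hy3
      obtain ⟨T, a, a', hT⟩ := one h h7 hq4 hφ P hm hm2 hqm hr' hr2 hcl nm hnm hrU
      exact ⟨T, a, a', fun _ => hT⟩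
    · exact ⟨fun _ => 0, 0, 0, fun h => absurd h hy⟩
  choose T a a' hT using key
  -- `nm nu = rU * rU`
  have hnmnu : nm nu = rU * rU := by
    obtain ⟨h1, h2, _⟩ := sm_nat h hN2 hr'
    rw [← Units.val_inj, hnu', hnm _ h1, h2, Units.val_mul, hrU]
    push_cast
    ring
  have hodd : ∀ g, nm g = 1 → g * g = 1 → g = 1 := by
    intro g hg1 hg2
    obtain ⟨I, hI, rfl⟩ := hcl.surj g
    refine no_two h hN2 hcl hI ?_ hg2
    rw [← hnm I hI, hg1, Units.val_one]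
  -- `S` is not empty
  obtain ⟨y₀, hy₀⟩ : S.Nonempty := by
    rw [Finset.nonempty_iff_ne_empty]
    rintro rfl
    simp at hc
  obtain ⟨u₀, hu₀, _⟩ := (hT y₀ hy₀).2.2.2.1
  obtain ⟨g₀, hg1, hg2, hg3⟩ := exists_fix nm rU nu hnmnu hodd ⟨u₀, hu₀⟩
  set X : ZMod q → G → ℕ := fun y g => if T y g = a y ∨ T y g = a' y then 1 else 0 with hX
  obtain ⟨g, hgr, hgodd⟩ := exists_odd nm rU nu hnmnu S c hc X hg1 hg2 hg3
    (fun y hy => by
      obtain ⟨h1, h2, h3, h4, h5, h6, _⟩ := hT y hy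
      have h7 : T y g₀ = T y 1 :=
        fix_mem nm rU nu hodd (T y) h2 (by rw [h6, h1]) (by rw [h1]; exact h4) hg1 hg2
      have h8 : T y g₀ = a y ∨ T y g₀ = a' y := Or.inl (by rw [h7, h1])
      show (if T y g₀ = a y ∨ T y g₀ = a' y then 1 else 0) = 1
      rw [if_pos h8])
    (fun y hy => by
      obtain ⟨h1, h2, h3, h4, h5, h6, _⟩ := hT y hy
      obtain ⟨s, hs⟩ := sum_two nm rU (T y) h2 h3 h4 h5
      refine ⟨s, fun W hW => ?_⟩
      rw [← hs]
      have e : W = Finset.univ.filter (fun g => nm g = rU) := by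
        ext g
        rw [hW]
        simp
      rw [e]
      refine Finset.sum_congr (by ext; simp) fun g _ => ?_
      by_cases h8 : T y g = a y ∨ T y g = a' y
      · show (if T y g = a y ∨ T y g = a' y then 1 else 0) = _
        simp only [if_pos h8]
      · show (if T y g = a y ∨ T y g = a' y then 1 else 0) = _
        simp only [if_neg h8])
  -- the prime
  have hinf := PrF.primes_in_class h hN2 hNq hN0 hcl g
  have hfin : {P : Ideal (𝓞 K) | Ideal.absNorm P ≤ B}.Finite :=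
    Ideal.finite_setOfPred_absNorm_le B
  obtain ⟨Q, ⟨hQp, hQl, hQs, hQg⟩, hQB⟩ := (hinf.sdiff hfin).nonempty
  have hQB' : B < Ideal.absNorm Q := not_le.1 hQB
  have hQr : nm (cl Q) = rU := by rw [hQg, hgr]
  have hmod : Ideal.absNorm Q ≡ r' [MOD 8 * m * q] := by
    rw [← ZMod.natCast_eq_natCast_iff, ← hnm Q hQs, hQr, hrU]
  have hl2 : Ideal.absNorm Q ≠ 2 := by
    intro h2
    have h3 := hQs.2
    rw [h2] at h3
    exact (Nat.Prime.coprime_iff_not_dvd Nat.prime_two).1 h3 hN2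
  have hlq : Ideal.absNorm Q ≠ q := by
    intro h2
    have h3 := hQs.2
    rw [h2] at h3
    exact (Nat.Prime.coprime_iff_not_dvd h.prime).1 h3 hNq
  refine ⟨Ideal.absNorm Q, hQl, hQB', ?_, ?_, ?_⟩
  · exact (hmod.of_mul_right q).trans hr1
  · rw [jac_eq hq4 hQl hl2 hlq]
    exact PrF.legendre_one h hN2 hNq hcl Q hQs
  · have hsum : ∑ y ∈ S, c y * (PhiAt (Ideal.absNorm Q) y).rootMultiplicity y ≡
        ∑ y ∈ S, c y * (X y g + X y (nu * g⁻¹)) [MOD 2] := by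
      rw [← ZMod.natCast_eq_natCast_iff]
      push_cast
      refine Finset.sum_congr rfl fun y hy => ?_
      have h1 := (hT y hy).2.2.2.2.2.2 Q hQl hQs hQr
      rw [hQg] at h1
      have h2 : (PhiAt (Ideal.absNorm Q) y).rootMultiplicity y ≡
          X y g + X y (nu * g⁻¹) [MOD 2] := h1
      rw [← ZMod.natCast_eq_natCast_iff] at h2
      push_cast at h2
      rw [h2]
    rw [Nat.odd_iff] at hgodd ⊢
    rw [hsum]
    exact hgodd

end Pool.Agent.SS.KB
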